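import Pool.Agent.Q143.JN.Ind
import Mathlib.GroupTheory.Solvable

/-!
# Table tennis with solvable fibres
-/

set_option autoImplicit false
set_option linter.unusedSectionVars false
set_option linter.style.haveILetI false

namespace Pool.Agent.Q143.UG

open Monoid Pool.Agent.Y462.SS Pool.Agent.Q152.WP Pool.Agent.Q143.AR Pool.Agent.Q143.MV
  Pool.Agent.Q143.JN Cardinal

variable {C : ∀ (G : Type) [Group G], Prop}

/-- extensions with solvable kernel -/
theorem sol_ext (hC : Closed C) (hE : ExtClosed C)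
    (hS : ∀ (G : Type) [Group G], Group.IsSolvable G → C G) {G Q : Type} [Group G] [Group Q]
    (f : G →* Q) (hf : Group.IsSolvable f.ker) (hQ : C Q) : C G := by
  have hr : f.rangeRestrict.ker = f.ker := MonoidHom.ker_rangeRestrict f
  refine hE G f.range f.rangeRestrict f.rangeRestrict_surjective (of_sub hC _ hQ) ?_ ?_
  · rw [hr]
    exact hS _ hf
  · intro q _
    apply hS
    let g : (Subgroup.zpowers q).comap f.rangeRestrict →* Subgroup.zpowers q :=
      { toFun := fun x => ⟨f.rangeRestrict x.1, x.2⟩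
        map_one' := Subtype.ext (map_one _)
        map_mul' := fun a b => Subtype.ext (map_mul _ _ _) }
    let h : f.ker →* (Subgroup.zpowers q).comap f.rangeRestrict :=
      { toFun := fun x => ⟨x.1, by
          have h1 : f.rangeRestrict x.1 = 1 := by
            rw [← MonoidHom.mem_ker, hr]
            exact x.2
          rw [Subgroup.mem_comap, h1]
          exact one_mem _⟩
        map_one' := rfl
        map_mul' := fun a b => rfl }
    haveI := hf
    haveI : Group.IsSolvable (Subgroup.zpowers q) := by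
      letI : CommGroup (Subgroup.zpowers q) :=
        { mul_comm := fun a b => by
            obtain ⟨_, m, rfl⟩ := a
            obtain ⟨_, n, rfl⟩ := b
            apply Subtype.ext
            change q ^ m * q ^ n = q ^ n * q ^ m
            rw [← zpow_add, ← zpow_add, add_comm] }
      infer_instance
    refine Group.isSolvable_of_ker_le_range h g ?_
    intro x hx
    have h1 : f.rangeRestrict x.1 = 1 := congrArg Subtype.val hx
    have h2 : x.1 ∈ f.ker := by
      rw [← hr]
      exact h1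
    exact ⟨⟨x.1, h2⟩, rfl⟩

/-- a version of the main theorem on table tennis in which the stabilisers are extensions with solvable
kernel -/
theorem ind_sol {G G0 U α : Type} [Group G] [Group G0] [Group U] {B : Subgroup G0}
    {β : B →* MulAut U} {i : G0 →* G} {j : U →* G} (hC : Closed C) (hE : ExtClosed C)
    (hS : ∀ (G : Type) [Group G], Group.IsSolvable G → C G) (hU : Group.IsSolvable U)
    (hβ : ∀ (b : B) u, j (β b u) = i b * j u * (i b)⁻¹)
    (act : G →* Equiv.Perm α) (X0 : Set α) (hX0 : X0.Nonempty)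
    (h1 : ∀ g, g ∉ B → ∀ a ∈ X0, act (i g) a ∉ X0)
    (h2 : ∀ g, g ∉ B → ∀ u : U, u ≠ 1 → ∀ a ∈ X0, act (j u) (act (i g) a) ∈ X0)
    (hcard : ∃ x y z : G0 ⧸ B, x ≠ y ∧ x ≠ z ∧ y ≠ z)
    (f : G →* G0) (hfi : ∀ g, f (i g) = g) (hfj : ∀ u, f (j u) = 1)
    (Γ : Subgroup G) (hΓ : Γ ≤ Subgroup.closure (Set.range i ∪ Set.range j))
    (hQ : C (Γ.map f)) : C Γ := by
  classical
  have hin := pp_inj (i := i) (j := j) act X0 hX0 h1 h2 hcard
  have hPin : Function.Injective (Ph hβ (Γ.map f).subtype) :=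
    Ph_inj hβ hin f hfi hfj _ (Subgroup.subtype_injective _)
  have hTW : C ((tw B β).pull (Γ.map f).subtype).TW := by
    rw [perm_mem _ hC hE]
    refine ⟨hQ, fun x => ?_⟩
    -- the elements of the vertex group
    set T := (tw B β).pull (Γ.map f).subtype with hT
    have h3 : ∀ w ∈ vx T x, ∃ k : U, ∃ q : (Γ.map f), w = T.e x k * T.r q ∧ q ∈ stb T x := by
      intro w hw
      induction hw using Subgroup.closure_induction with
      | mem w hw =>
        rcases hw with ⟨k, rfl⟩ | ⟨q, hq, rfl⟩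
        · exact ⟨k, 1, by rw [map_one, mul_one], one_mem _⟩
        · exact ⟨1, q, by rw [map_one, one_mul], hq⟩
      | one => exact ⟨1, 1, by rw [map_one, map_one, mul_one], one_mem _⟩
      | mul a b _ _ ha hb =>
        obtain ⟨k, q, rfl, hq⟩ := ha
        obtain ⟨k', q', rfl, hq'⟩ := hb
        have h5 := T.rel q x k'
        have h6 : T.a q x = x := hq
        rw [h6] at h5
        refine ⟨k * T.c q x k', q * q', ?_, mul_mem hq hq'⟩
        rw [map_mul, map_mul, ← h5]
        group
      | inv a _ ha =>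
        obtain ⟨k, q, rfl, hq⟩ := ha
        have h5 := T.rel q⁻¹ x k⁻¹
        have h6 : T.a q⁻¹ x = x := inv_mem hq
        rw [h6] at h5
        refine ⟨T.c q⁻¹ x k⁻¹, q⁻¹, ?_, inv_mem hq⟩
        rw [← h5, map_inv, map_inv]
        group
    refine sol_ext hC hE hS (SemidirectProduct.rightHom.comp (vx T x).subtype) ?_ hQ
    haveI := hU
    let g : U →* (SemidirectProduct.rightHom.comp (vx T x).subtype).ker :=
      { toFun := fun k => ⟨⟨T.e x k, e_mem_vx x k⟩, rfl⟩
        map_one' := Subtype.ext (Subtype.ext (map_one _))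
        map_mul' := fun a b => Subtype.ext (Subtype.ext (map_mul _ _ _)) }
    refine Group.isSolvable_of_surjective (f := g) ?_
    rintro ⟨⟨w, hw⟩, hw1⟩
    obtain ⟨k, q, rfl, hq⟩ := h3 w hw
    have h4 : (T.e x k * T.r q).right = 1 := hw1
    have h5 : (T.e x k * T.r q).right = q := by
      change (1 : (Γ.map f)) * q = q
      rw [one_mul]
    rw [h5] at h4
    refine ⟨k, Subtype.ext (Subtype.ext ?_)⟩
    change T.e x k = T.e x k * T.r q
    rw [h4, map_one, mul_one]
  have h3 : ∀ g : Γ, ∃ w, Ph hβ (Γ.map f).subtype w = g.1 := fun g =>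
    Ph_surj hβ f hfi hfj (Γ.map f) g.1 (hΓ g.2) ⟨g.1, g.2, rfl⟩
  choose w hw using h3
  refine hC.of_injective _ _ ({ toFun := w, map_one' := ?_, map_mul' := ?_ } : Γ →*
    ((tw B β).pull (Γ.map f).subtype).TW) ?_ hTW
  · apply hPin
    rw [hw, map_one]
    rfl
  · intro a b
    apply hPin
    rw [hw, map_mul, hw, hw]
    rfl
  · intro a b hab
    have h4 : w a = w b := hab
    apply Subtype.ext
    rw [← hw a, ← hw b, h4]

/-- the same for a subgroup `U` normalised by `B` -/
theorem ind_sol' {G G0 α : Type} [Group G] [Group G0] (hC : Closed C) (hE : ExtClosed C)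
    (hS : ∀ (G : Type) [Group G], Group.IsSolvable G → C G) (B : Subgroup G0) (i : G0 →* G)
    (U : Subgroup G) (hUs : Group.IsSolvable U) (hU : ∀ b ∈ B, ∀ u ∈ U, i b * u * (i b)⁻¹ ∈ U)
    (act : G →* Equiv.Perm α) (X0 : Set α) (hX0 : X0.Nonempty)
    (h1 : ∀ g, g ∉ B → ∀ a ∈ X0, act (i g) a ∉ X0)
    (h2 : ∀ g, g ∉ B → ∀ u ∈ U, u ≠ 1 → ∀ a ∈ X0, act u (act (i g) a) ∈ X0)
    (hcard : ∃ x y z : G0 ⧸ B, x ≠ y ∧ x ≠ z ∧ y ≠ z)
    (f : G →* G0) (hfi : ∀ g, f (i g) = g) (hfj : ∀ u ∈ U, f u = 1)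
    (Γ : Subgroup G) (hΓ : Γ ≤ Subgroup.closure (Set.range i ∪ (U : Set G)))
    (hQ : C (Γ.map f)) : C Γ := by
  let β : B →* MulAut U :=
    { toFun := fun b => 
        { toFun := fun u => ⟨i b * u.1 * (i b)⁻¹, hU b b.2 u.1 u.2⟩
          invFun := fun u => ⟨i (b⁻¹ : B) * u.1 * (i (b⁻¹ : B))⁻¹, hU _ (b⁻¹).2 u.1 u.2⟩
          left_inv := fun u => Subtype.ext (by
            change i (b⁻¹ : B) * (i b * u.1 * (i b)⁻¹) * (i (b⁻¹ : B))⁻¹ = u.1
            rw [Subgroup.coe_inv, map_inv]
            group)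
          right_inv := fun u => Subtype.ext (by
            change i b * (i (b⁻¹ : B) * u.1 * (i (b⁻¹ : B))⁻¹) * (i b)⁻¹ = u.1
            rw [Subgroup.coe_inv, map_inv]
            group)
          map_mul' := fun u v => Subtype.ext (by
            change i b * (u.1 * v.1) * (i b)⁻¹ = (i b * u.1 * (i b)⁻¹) * (i b * v.1 * (i b)⁻¹)
            group) }
      map_one' := by
        ext u
        change i ((1 : B) : G0) * u.1 * (i ((1 : B) : G0))⁻¹ = u.1
        rw [Subgroup.coe_one, map_one, one_mul, inv_one, mul_one]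
      map_mul' := fun b b' => by
        ext u
        change i ((b * b' : B) : G0) * u.1 * (i ((b * b' : B) : G0))⁻¹ =
          i b * (i b' * u.1 * (i b')⁻¹) * (i b)⁻¹
        rw [Subgroup.coe_mul, map_mul]
        group }
  have hr : Set.range (U.subtype) = (U : Set G) := by
    ext g
    simp
  refine ind_sol (i := i) (j := U.subtype) (β := β) (B := B) hC hE hS hUs (fun b u => rfl) act X0
    hX0 h1 (fun g hg u hu => h2 g hg u.1 u.2 (fun h => hu (Subtype.ext h))) hcard f hfi
    (fun u => hfj u.1 u.2) Γ ?_ hQ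
  rw [hr]
  exact hΓ

end Pool.Agent.Q143.UG
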