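import Mathlib.LinearAlgebra.Matrix.GeneralLinearGroup.Defs
import Mathlib.Data.Matrix.Block
import Mathlib.LinearAlgebra.Matrix.Notation
import Mathlib.Tactic.NoncommRing

/-!
# Isometry groups of hermitian forms which are the sum of a hyperbolic plane and another form
-/

set_option autoImplicit false
set_option linter.unusedSectionVars false
set_option linter.dupNamespace false
set_option linter.unusedSimpArgs false

namespace Pool.Agent.Q143.UG

open Matrix

section

variable {R J : Type} [CommRing R] [Fintype J] [DecidableEq J]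

/-- The isometry group of the sesquilinear form with the Gram matrix `N` over the ring `R` with the
ring endomorphism `σ`. -/
def UG (σ : R →+* R) (N : Matrix J J R) : Subgroup (GL J R) where
  carrier := {g | (g.1.map σ)ᵀ * N * g.1 = N}
  one_mem' := by
    change (((1 : Matrix J J R)).map σ)ᵀ * N * 1 = N
    rw [Matrix.map_one σ (map_zero σ) (map_one σ), Matrix.transpose_one, Matrix.one_mul,
      Matrix.mul_one]
  mul_mem' := by
    intro g h hg hh
    have hg' : (g.1.map σ)ᵀ * N * g.1 = N := hg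
    have hh' : (h.1.map σ)ᵀ * N * h.1 = N := hh
    change ((g.1 * h.1).map σ)ᵀ * N * (g.1 * h.1) = N
    rw [Matrix.map_mul, Matrix.transpose_mul]
    calc _ = (h.1.map σ)ᵀ * ((g.1.map σ)ᵀ * N * g.1) * h.1 := by noncomm_ring
      _ = N := by rw [hg', hh']
  inv_mem' := by
    intro g hg
    have hg' : (g.1.map σ)ᵀ * N * g.1 = N := hg
    have h1 : g.1 * (g⁻¹).1 = 1 := by rw [← Units.val_mul, mul_inv_cancel, Units.val_one]
    have h2 : ((g⁻¹).1.map σ)ᵀ * (g.1.map σ)ᵀ = 1 := by
      rw [← Matrix.transpose_mul, ← Matrix.map_mul, h1, Matrix.map_one σ (map_zero σ) (map_one σ),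
        Matrix.transpose_one]
    change ((g⁻¹).1.map σ)ᵀ * N * (g⁻¹).1 = N
    calc _ = ((g⁻¹).1.map σ)ᵀ * ((g.1.map σ)ᵀ * N * g.1) * (g⁻¹).1 := by rw [hg']
      _ = (((g⁻¹).1.map σ)ᵀ * (g.1.map σ)ᵀ) * N * (g.1 * (g⁻¹).1) := by noncomm_ring
      _ = N := by rw [h1, h2, Matrix.one_mul, Matrix.mul_one]

/-- the sesquilinear form -/
def hf (σ : R →+* R) (N : Matrix J J R) (v w : J → R) : R := ∑ a, ∑ b, σ (v a) * N a b * w b

theorem hf_eq (σ : R →+* R) (N : Matrix J J R) (v w : J → R) :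
    hf σ N v w = (fun a => σ (v a)) ⬝ᵥ (N *ᵥ w) := by
  unfold hf dotProduct
  refine Finset.sum_congr rfl (fun a _ => ?_)
  rw [Matrix.mulVec, dotProduct, Finset.mul_sum]
  exact Finset.sum_congr rfl (fun b _ => mul_assoc _ _ _)

theorem hf_mul {σ : R →+* R} {N : Matrix J J R} {g : GL J R} (hg : g ∈ UG σ N) (v w : J → R) :
    hf σ N (g.1 *ᵥ v) (g.1 *ᵥ w) = hf σ N v w := by
  have hg' : (g.1.map σ)ᵀ * N * g.1 = N := hg
  rw [hf_eq, hf_eq]
  have h1 : (fun a => σ ((g.1 *ᵥ v) a)) = (g.1.map σ) *ᵥ (fun a => σ (v a)) := by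
    ext a
    rw [Matrix.mulVec, dotProduct, map_sum, Matrix.mulVec, dotProduct]
    exact Finset.sum_congr rfl (fun b _ => map_mul _ _ _)
  rw [h1, ← Matrix.vecMul_transpose, ← Matrix.dotProduct_mulVec, Matrix.mulVec_mulVec,
    Matrix.mulVec_mulVec, hg']

theorem hf_add_left (σ : R →+* R) (N : Matrix J J R) (v v' w : J → R) :
    hf σ N (v + v') w = hf σ N v w + hf σ N v' w := by
  unfold hf
  rw [← Finset.sum_add_distrib]
  refine Finset.sum_congr rfl (fun a _ => ?_)
  rw [← Finset.sum_add_distrib]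
  refine Finset.sum_congr rfl (fun b _ => ?_)
  rw [Pi.add_apply, map_add]
  ring

theorem hf_neg_left (σ : R →+* R) (N : Matrix J J R) (v w : J → R) :
    hf σ N (-v) w = - hf σ N v w := by
  unfold hf
  rw [← Finset.sum_neg_distrib]
  refine Finset.sum_congr rfl (fun a _ => ?_)
  rw [← Finset.sum_neg_distrib]
  refine Finset.sum_congr rfl (fun b _ => ?_)
  rw [Pi.neg_apply, map_neg]
  ring

theorem hf_neg_right (σ : R →+* R) (N : Matrix J J R) (v w : J → R) :
    hf σ N v (-w) = - hf σ N v w := by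
  unfold hf
  rw [← Finset.sum_neg_distrib]
  refine Finset.sum_congr rfl (fun a _ => ?_)
  rw [← Finset.sum_neg_distrib]
  refine Finset.sum_congr rfl (fun b _ => ?_)
  rw [Pi.neg_apply]
  ring

theorem hf_zero_left (σ : R →+* R) (N : Matrix J J R) (w : J → R) : hf σ N 0 w = 0 := by
  unfold hf
  simp

theorem hf_zero_right (σ : R →+* R) (N : Matrix J J R) (v : J → R) : hf σ N v 0 = 0 := by
  unfold hf
  simp

theorem hf_single (σ : R →+* R) (N : Matrix J J R) (a b : J) :
    hf σ N (Pi.single a 1) (Pi.single b 1) = N a b := by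
  unfold hf
  rw [Finset.sum_eq_single a, Finset.sum_eq_single b]
  · simp
  · intro c _ hc
    rw [Pi.single_eq_of_ne hc, mul_zero]
  · simp
  · intro c _ hc
    refine Finset.sum_eq_zero (fun d _ => ?_)
    rw [Pi.single_eq_of_ne hc, map_zero, zero_mul, zero_mul]
  · simp

/-- membership can be checked on vectors -/
theorem mem_UG {σ : R →+* R} {N : Matrix J J R} {g : GL J R}
    (h : ∀ a b, hf σ N (g.1 *ᵥ (Pi.single a 1)) (g.1 *ᵥ (Pi.single b 1)) = N a b) :
    g ∈ UG σ N := by
  change (g.1.map σ)ᵀ * N * g.1 = N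
  ext a b
  rw [← h a b]
  unfold hf
  rw [Matrix.mul_apply]
  simp_rw [Matrix.mul_apply, Finset.sum_mul]
  rw [Finset.sum_comm]
  refine Finset.sum_congr rfl (fun c _ => Finset.sum_congr rfl (fun d _ => ?_))
  rw [Matrix.mulVec_single_one, Matrix.mulVec_single_one]
  rfl

end

section

variable {R S I : Type} [CommRing R] [CommRing S] [Fintype I] [DecidableEq I]

/-- The Gram matrix of the orthogonal sum of a hyperbolic plane and the form with the Gram matrix
`M`. -/
def hyp (M : Matrix I I R) : Matrix (Fin 2 ⊕ I) (Fin 2 ⊕ I) R :=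
  Matrix.fromBlocks !![0, 1; 1, 0] 0 0 M

theorem hf_hyp (σ : R →+* R) (M : Matrix I I R) (v w : Fin 2 ⊕ I → R) :
    hf σ (hyp M) v w = σ (v (Sum.inl 0)) * w (Sum.inl 1) + σ (v (Sum.inl 1)) * w (Sum.inl 0) +
      hf σ M (fun a => v (Sum.inr a)) (fun a => w (Sum.inr a)) := by
  unfold hf hyp
  rw [Fintype.sum_sum_type, Fin.sum_univ_two]
  simp [Fintype.sum_sum_type, Fin.sum_univ_two]

/-- the homomorphism given by a ring homomorphism -/
def mapU {σ : R →+* R} {τ : S →+* S} {M : Matrix I I R} {M' : Matrix I I S} (φ : R →+* S)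
    (hφ : ∀ r, φ (σ r) = τ (φ r)) (hM : ∀ a b, M' a b = φ (M a b)) :
    UG σ (hyp M) →* UG τ (hyp M') :=
  ((GeneralLinearGroup.map φ).comp (UG σ (hyp M)).subtype).codRestrict _ (by
    intro g
    have hg : (g.1.1.map σ)ᵀ * hyp M * g.1.1 = hyp M := g.2
    change ((g.1.1.map φ).map τ)ᵀ * hyp M' * (g.1.1.map φ) = hyp M'
    have h1 : hyp M' = (hyp M).map φ := by
      ext a b
      rcases a with a | a <;> rcases b with b | b
      · fin_cases a <;> fin_cases b <;> simp [hyp]
      · simp [hyp]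
      · simp [hyp]
      · simp [hyp, hM]
    have h2 : (g.1.1.map φ).map τ = (g.1.1.map σ).map φ := by
      ext a b
      exact (hφ _).symm
    rw [h1, h2, ← Matrix.transpose_map, ← Matrix.map_mul, ← Matrix.map_mul, hg])

theorem mapU_apply {σ : R →+* R} {τ : S →+* S} {M : Matrix I I R} {M' : Matrix I I S}
    (φ : R →+* S) (hφ : ∀ r, φ (σ r) = τ (φ r)) (hM : ∀ a b, M' a b = φ (M a b))
    (g : UG σ (hyp M)) (a b : Fin 2 ⊕ I) : (mapU φ hφ hM g).1.1 a b = φ (g.1.1 a b) := rfl

/-- the linear form `h(x, -)` -/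
def lf (σ : R →+* R) (M : Matrix I I R) (x : I → R) (b : I) : R := ∑ a, σ (x a) * M a b

theorem hf_lf (σ : R →+* R) (M : Matrix I I R) (x y : I → R) :
    hf σ M x y = ∑ b, lf σ M x b * y b := by
  unfold hf lf
  rw [Finset.sum_comm]
  exact Finset.sum_congr rfl (fun b _ => (Finset.sum_mul _ _ _).symm)

/-- the Siegel transformations -/
def sg (σ : R →+* R) (M : Matrix I I R) (x : I → R) (s : R) :
    Matrix (Fin 2 ⊕ I) (Fin 2 ⊕ I) R :=
  Matrix.fromBlocks !![1, s; 0, 1] (Matrix.of ![fun b => - lf σ M x b, fun _ => 0])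
    (Matrix.of fun a => ![0, x a]) 1

theorem sg_vec (σ : R →+* R) (M : Matrix I I R) (x : I → R) (s : R) (v : Fin 2 ⊕ I → R) :
    (sg σ M x s *ᵥ v) (Sum.inl 0) = v (Sum.inl 0) + s * v (Sum.inl 1) -
      hf σ M x (fun a => v (Sum.inr a)) ∧
    (sg σ M x s *ᵥ v) (Sum.inl 1) = v (Sum.inl 1) ∧
    ∀ a, (sg σ M x s *ᵥ v) (Sum.inr a) = v (Sum.inr a) + x a * v (Sum.inl 1) := by
  refine ⟨?_, ?_, ?_⟩
  · rw [Matrix.mulVec, dotProduct, Fintype.sum_sum_type, Fin.sum_univ_two, hf_lf]
    simp [sg, sub_eq_add_neg]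
  · rw [Matrix.mulVec, dotProduct, Fintype.sum_sum_type, Fin.sum_univ_two]
    simp [sg]
  · intro a
    rw [Matrix.mulVec, dotProduct, Fintype.sum_sum_type, Fin.sum_univ_two]
    simp [sg, Matrix.one_apply, add_comm]

theorem lf_add (σ : R →+* R) (M : Matrix I I R) (x y : I → R) (b : I) :
    lf σ M (x + y) b = lf σ M x b + lf σ M y b := by
  unfold lf
  rw [← Finset.sum_add_distrib]
  refine Finset.sum_congr rfl (fun a _ => ?_)
  rw [Pi.add_apply, map_add, add_mul]

theorem sg_mul (σ : R →+* R) (M : Matrix I I R) (x y : I → R) (s t : R) :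
    sg σ M x s * sg σ M y t = sg σ M (x + y) (s + t - hf σ M x y) := by
  unfold sg
  rw [Matrix.fromBlocks_multiply]
  congr 1
  · ext a b
    rw [Matrix.add_apply, Matrix.mul_apply, Matrix.mul_apply, Fin.sum_univ_two]
    fin_cases a <;> fin_cases b <;> simp [hf_lf]
    ring
  · ext a b
    rw [Matrix.add_apply, Matrix.mul_apply, Matrix.mul_apply, Fin.sum_univ_two]
    fin_cases a <;> simp [lf_add, Matrix.one_apply]
  · ext a b
    rw [Matrix.add_apply, Matrix.mul_apply, Matrix.mul_apply, Fin.sum_univ_two]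
    fin_cases b <;> simp [Matrix.one_apply, add_comm]
  · ext a b
    rw [Matrix.add_apply, Matrix.mul_apply, Matrix.mul_apply, Fin.sum_univ_two]
    simp [Matrix.one_apply]

theorem sg_zero (σ : R →+* R) (M : Matrix I I R) : sg σ M 0 0 = 1 := by
  unfold sg lf
  ext a b
  rcases a with a | a <;> rcases b with b | b
  · fin_cases a <;> fin_cases b <;> simp
  · fin_cases a <;> simp
  · fin_cases b <;> simp
  · simp [Matrix.one_apply]

end

end Pool.Agent.Q143.UG
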