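import Pool.Agent.Q143.UG.Ten
import Pool.Agent.Q143.UG.Ind2

/-!
# Generation of the isometry groups over polynomial rings, and the main theorem
-/

set_option autoImplicit false
set_option linter.unusedSectionVars false
set_option linter.dupNamespace false
set_option linter.unusedSimpArgs false
set_option linter.style.haveILetI false
set_option linter.unusedVariables false

namespace Pool.Agent.Q143.UG

open Matrix Polynomial Pool.Agent.Y462.SS Pool.Agent.Q152.WP

variable {K I : Type} [Field K] [Fintype I] [DecidableEq I] {σ : K →+* K} {M : Matrix I I K}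

theorem col_e0 {R : Type} [CommRing R] (g : Matrix (Fin 2 ⊕ I) (Fin 2 ⊕ I) R)
    (h : ∀ b, g b (Sum.inl 0) = if b = Sum.inl 0 then 1 else 0) : g *ᵥ e0 R I = e0 R I := by
  ext b
  rw [col_apply, h]
  exact (Pi.single_apply _ _ _).symm

theorem e0_ne {R : Type} [CommRing R] {j : Fin 2 ⊕ I} (hj : j ≠ Sum.inl 0) : e0 R I j = 0 :=
  Pi.single_eq_of_ne hj _

theorem e0_self {R : Type} [CommRing R] : e0 R I (Sum.inl 0) = 1 := Pi.single_eq_same _ _

theorem gg_inv {R : Type} [CommRing R] {J : Type} [Fintype J] [DecidableEq J] {H : Subgroup (GL J R)}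
    (g : H) : (g⁻¹).1.1 * g.1.1 = 1 := by
  have h3 : (g⁻¹).1 * g.1 = 1 := inv_mul_cancel g.1
  exact congrArg Units.val h3

/-- conjugation by the stabiliser -/
theorem uu_conj {a : K} (ha : σ a = a) (b : UG σ (hyp M)) (hb : b ∈ BB σ M)
    (u : UG (sX σ) (hyp (MX M))) (hu : u ∈ UU σ M ha) :
    ci σ M b * u * (ci σ M b)⁻¹ ∈ UU σ M ha := by
  obtain ⟨l, hl, hb⟩ := hb
  obtain ⟨hu, hu'⟩ := hu
  have h1 : (ci σ M b).1.1 *ᵥ e0 K[X] I = C l • e0 K[X] I := by
    ext1 j
    have h2 := congrFun hb j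
    rw [col_apply] at h2
    rw [col_apply]
    change C (b.1.1 j (Sum.inl 0)) = C l * e0 K[X] I j
    have h2' : b.1.1 j (Sum.inl 0) = l * e0 K I j := h2
    rw [h2']
    by_cases hj : j = Sum.inl 0
    · subst hj
      rw [e0_self, e0_self, mul_one, mul_one]
    · rw [e0_ne hj, e0_ne hj, mul_zero, mul_zero, C_0]
  have h2 : ((ci σ M b)⁻¹).1.1 *ᵥ e0 K[X] I = C l⁻¹ • e0 K[X] I := by
    have h3 : ((ci σ M b)⁻¹).1.1 *ᵥ ((ci σ M b).1.1 *ᵥ e0 K[X] I) = e0 K[X] I := by
      rw [Matrix.mulVec_mulVec, gg_inv, Matrix.one_mulVec]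
    rw [h1, Matrix.mulVec_smul] at h3
    have h4 := congrArg (fun w => (C l⁻¹ : K[X]) • w) h3
    have h5 : (C l⁻¹ : K[X]) * C l = 1 := by
      rw [← C_mul, inv_mul_cancel₀ hl, C_1]
    change (C l⁻¹ : K[X]) • (C l : K[X]) • _ = _ at h4
    rwa [smul_smul, h5, one_smul] at h4
  refine ⟨?_, ?_⟩
  · change ((ci σ M b).1.1 * u.1.1 * ((ci σ M b)⁻¹).1.1) *ᵥ e0 K[X] I = _
    rw [← Matrix.mulVec_mulVec, h2, Matrix.mulVec_smul, ← Matrix.mulVec_mulVec, hu, h1, smul_smul,
      ← C_mul, inv_mul_cancel₀ hl, C_1, one_smul]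
  · rw [map_mul, map_mul, hu', mul_one, map_inv, mul_inv_cancel]

/-- the group of Siegel transformations is solvable -/
theorem uu_sol (hA : Aniso σ M) {a : K} (ha : σ a = a) : Group.IsSolvable (UU σ M ha) := by
  have hform : ∀ g : UU σ M ha, ∃ s : K[X], g.1.1.1 = sg (sX σ) (MX M)
      (fun b => g.1.1.1 (Sum.inr b) (Sum.inl 1)) s := by
    intro g
    obtain ⟨x, s, h1, -, -, -⟩ := uu_form hA ha g.2
    refine ⟨s, ?_⟩
    have h2 : (fun b => g.1.1.1 (Sum.inr b) (Sum.inl 1)) = x := by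
      ext1 b
      rw [h1]
      simp [sg]
    rw [h2]
    exact h1
  let X : UU σ M ha →* Multiplicative (I → K[X]) :=
    { toFun := fun g => Multiplicative.ofAdd (fun b => g.1.1.1 (Sum.inr b) (Sum.inl 1))
      map_one' := by
        change Multiplicative.ofAdd _ = Multiplicative.ofAdd 0
        congr 1
      map_mul' := fun g h => by
        change Multiplicative.ofAdd _ = Multiplicative.ofAdd _
        congr 1
        ext1 b
        obtain ⟨s, hs⟩ := hform g
        obtain ⟨t, ht⟩ := hform h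
        change (g.1.1.1 * h.1.1.1) (Sum.inr b) (Sum.inl 1) =
          g.1.1.1 (Sum.inr b) (Sum.inl 1) + h.1.1.1 (Sum.inr b) (Sum.inl 1)
        rw [hs, ht, sg_mul]
        simp [sg] }
  haveI : Group.IsSolvable X.ker := by
    letI : CommGroup X.ker :=
      { mul_comm := fun g h => by
          have hk : ∀ k : X.ker, (fun b => k.1.1.1.1 (Sum.inr b) (Sum.inl 1)) = (0 : I → K[X]) :=
            fun k => congrArg Multiplicative.toAdd k.2
          obtain ⟨s, hs⟩ := hform g.1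
          obtain ⟨t, ht⟩ := hform h.1
          rw [hk] at hs ht
          apply Subtype.ext
          apply Subtype.ext
          apply Subtype.ext
          apply Units.ext
          change g.1.1.1.1 * h.1.1.1.1 = h.1.1.1.1 * g.1.1.1.1
          rw [hs, ht, sg_mul, sg_mul, hf_zero_left, add_comm s t] }
    infer_instance
  exact Group.isSolvable_of_ker_le_range X.ker.subtype X (by rw [Subgroup.range_subtype])

/-- three isotropic lines -/
theorem bb_three (h2 : ∀ r, σ (σ r) = r) (hM : ∀ a b, σ (M a b) = M b a) (hA : Aniso σ M)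
    (hchar : (2 : K) ≠ 0) [Nonempty I] :
    ∃ x y z : UG σ (hyp M) ⧸ BB σ M, x ≠ y ∧ x ≠ z ∧ y ≠ z := by
  obtain ⟨b⟩ := (inferInstance : Nonempty I)
  let x : I → K := Pi.single b 1
  have hσ2 : σ (2 : K)⁻¹ = (2 : K)⁻¹ := by rw [map_inv₀, map_ofNat]
  have hs : -(2 : K)⁻¹ * hf σ M x x + σ (-(2 : K)⁻¹ * hf σ M x x) + hf σ M x x = 0 := by
    rw [map_mul, map_neg, hσ2, hf_symm h2 hM]
    field_simp
    ring
  let S := sgG h2 hM x _ hs
  have key : ∀ g : UG σ (hyp M), g ∈ BB σ M → (g.1.1 (Sum.inl 1) (Sum.inl 0) = 0) ∧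
      (∀ c, g.1.1 (Sum.inr c) (Sum.inl 0) = 0) := by
    rintro g ⟨l, hl, hg⟩
    have h3 : ∀ j, g.1.1 j (Sum.inl 0) = l * e0 K I j := by
      intro j
      have h4 := congrFun hg j
      rw [col_apply] at h4
      exact h4
    refine ⟨?_, fun c => ?_⟩
    · rw [h3, e0_ne (by simp), mul_zero]
    · rw [h3, e0_ne (by simp), mul_zero]
  have hw : ∀ j, (wey σ M).1.1 j (Sum.inl 0) = if j = Sum.inl 1 then 1 else 0 := by
    intro j
    change (Matrix.fromBlocks !![0, 1; 1, 0] 0 0 1 : Matrix (Fin 2 ⊕ I) (Fin 2 ⊕ I) K) j _ = _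
    rcases j with j | j
    · fin_cases j <;> simp
    · simp
  refine ⟨((1 : UG σ (hyp M)) : UG σ (hyp M) ⧸ BB σ M), ((wey σ M : UG σ (hyp M)) :
    UG σ (hyp M) ⧸ BB σ M), ((S * wey σ M : UG σ (hyp M)) : UG σ (hyp M) ⧸ BB σ M), ?_, ?_, ?_⟩
  · intro h
    rw [QuotientGroup.eq, inv_one, one_mul] at h
    have h3 := (key _ h).1
    rw [hw, if_pos rfl] at h3
    exact one_ne_zero h3
  · intro h
    rw [QuotientGroup.eq, inv_one, one_mul] at h
    have h3 := (key _ h).1
    have h4 : (S * wey σ M).1.1 (Sum.inl 1) (Sum.inl 0) = 1 := by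
      refine (col_apply _ _ _).symm.trans ?_
      change ((S.1.1 * (wey σ M).1.1) *ᵥ _) _ = _
      rw [← Matrix.mulVec_mulVec]
      change (sg σ M x _ *ᵥ _) _ = _
      rw [(sg_vec σ M x _ _).2.1, (wey_vec _).2.1]
      simp
    rw [h4] at h3
    exact one_ne_zero h3
  · intro h
    rw [QuotientGroup.eq] at h
    have h3 := (key _ h).2 b
    have h4 : ((wey σ M)⁻¹ * (S * wey σ M)).1.1 (Sum.inr b) (Sum.inl 0) = 1 := by
      refine (col_apply _ _ _).symm.trans ?_
      have h5 : (wey σ M)⁻¹ = wey σ M := by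
        apply Subtype.ext
        apply Units.ext
        rfl
      rw [h5]
      change (((wey σ M).1.1 * (S.1.1 * (wey σ M).1.1)) *ᵥ _) _ = _
      rw [← Matrix.mulVec_mulVec, (wey_vec _).2.2, ← Matrix.mulVec_mulVec]
      change (sg σ M x _ *ᵥ _) _ = _
      rw [(sg_vec σ M x _ _).2.2, (wey_vec _).2.1, (wey_vec _).2.2]
      simp [x]
    rw [h4] at h3
    exact one_ne_zero h3

end Pool.Agent.Q143.UG
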