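import Pool.Agent.Q143.UG.Gen

/-!
# Generation of the isometry groups over polynomial rings by constants and Siegel transformations
-/

set_option autoImplicit false
set_option linter.unusedSectionVars false
set_option linter.dupNamespace false
set_option linter.unusedSimpArgs false
set_option linter.unusedVariables false

namespace Pool.Agent.Q143.UG

open Matrix Polynomial Pool.Agent.Y462.SS Pool.Agent.Q152.WP

variable {K I : Type} [Field K] [Fintype I] [DecidableEq I] {σ : K →+* K} {M : Matrix I I K}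

variable (M) in
/-- the group generated by the constants and the Siegel transformations -/
noncomputable abbrev NN {a : K} (ha : σ a = a) : Subgroup (UG (sX σ) (hyp (MX M))) :=
  Subgroup.closure (Set.range (ci σ M) ∪ (UU σ M ha : Set (UG (sX σ) (hyp (MX M)))))

theorem invX (h2 : ∀ r, σ (σ r) = r) (p : K[X]) : sX σ (sX σ p) = p := by
  change (p.map σ).map σ = p
  rw [Polynomial.map_map]
  have h : σ.comp σ = RingHom.id K := RingHom.ext h2
  rw [h, Polynomial.map_id]

theorem symX (hM : ∀ a b, σ (M a b) = M b a) (a b : I) : sX σ (MX M a b) = MX M b a := by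
  change (C (M a b)).map σ = C (M b a)
  rw [Polynomial.map_C, hM]

theorem wey_ci : ci σ M (wey σ M) = wey (sX σ) (MX M) := by
  apply Subtype.ext
  apply Units.ext
  change (Matrix.fromBlocks !![0, 1; 1, 0] 0 0 1 : Matrix (Fin 2 ⊕ I) (Fin 2 ⊕ I) K).map C =
    Matrix.fromBlocks !![0, 1; 1, 0] 0 0 1
  ext b c
  rcases b with b | b <;> rcases c with c | c
  · fin_cases b <;> fin_cases c <;> simp
  · simp
  · simp
  · simp [Matrix.one_apply, apply_ite]

/-- isometries which fix the first line -/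
theorem line_mem {a : K} (ha : σ a = a) (g : UG (sX σ) (hyp (MX M))) {l : K} (hl : l ≠ 0)
    (hg : g.1.1 *ᵥ e0 K[X] I = C l • e0 K[X] I) : g ∈ NN M ha := by
  have h1 : (ci σ M (ev σ M ha g)).1.1 *ᵥ e0 K[X] I = C l • e0 K[X] I := by
    ext1 j
    have h2 := congrFun hg j
    rw [col_apply] at h2
    rw [col_apply]
    have h3 : g.1.1 j (Sum.inl 0) = C l * e0 K[X] I j := h2
    change C ((g.1.1 j (Sum.inl 0)).eval a) = C l * e0 K[X] I j
    rw [h3]
    by_cases hj : j = Sum.inl 0
    · subst hj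
      rw [e0_self, mul_one, eval_C]
    · rw [e0_ne hj, mul_zero, eval_zero, C_0]
  have h2 : ((ci σ M (ev σ M ha g))⁻¹).1.1 *ᵥ e0 K[X] I = C l⁻¹ • e0 K[X] I := by
    have h3 : ((ci σ M (ev σ M ha g))⁻¹).1.1 *ᵥ ((ci σ M (ev σ M ha g)).1.1 *ᵥ e0 K[X] I) =
        e0 K[X] I := by
      rw [Matrix.mulVec_mulVec, gg_inv, Matrix.one_mulVec]
    rw [h1, Matrix.mulVec_smul] at h3
    have h4 := congrArg (fun w => (C l⁻¹ : K[X]) • w) h3
    have h5 : (C l⁻¹ : K[X]) * C l = 1 := by
      rw [← C_mul, inv_mul_cancel₀ hl, C_1]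
    change (C l⁻¹ : K[X]) • (C l : K[X]) • _ = _ at h4
    rwa [smul_smul, h5, one_smul] at h4
  have h3 : (ci σ M (ev σ M ha g))⁻¹ * g ∈ UU σ M ha := by
    refine ⟨?_, ?_⟩
    · change (((ci σ M (ev σ M ha g))⁻¹).1.1 * g.1.1) *ᵥ _ = _
      rw [← Matrix.mulVec_mulVec, hg, Matrix.mulVec_smul, h2, smul_smul, ← C_mul,
        mul_inv_cancel₀ hl, C_1, one_smul]
    · rw [map_mul, map_inv, ev_ci, inv_mul_cancel]
  have h4 : g = ci σ M (ev σ M ha g) * ((ci σ M (ev σ M ha g))⁻¹ * g) := by group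
  rw [h4]
  exact mul_mem (Subgroup.subset_closure (Or.inl ⟨_, rfl⟩)) (Subgroup.subset_closure (Or.inr h3))

/-- Siegel transformations -/
theorem sg_mem {a : K} (ha : σ a = a) (h2 : ∀ r, σ (σ r) = r) (hM : ∀ a b, σ (M a b) = M b a)
    (x : I → K[X]) (s : K[X]) (hs : s + sX σ s + hf (sX σ) (MX M) x x = 0) :
    sgG (invX h2) (symX hM) x s hs ∈ NN M ha := by
  refine line_mem ha _ (l := 1) one_ne_zero ?_
  rw [C_1, one_smul]
  refine col_e0 _ (fun b => ?_)
  change sg (sX σ) (MX M) x s b (Sum.inl 0) = _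
  rcases b with b | b
  · fin_cases b <;> simp [sg]
  · simp [sg]

/-- isometries with vanishing lower left entry -/
theorem zero_mem {a : K} (ha : σ a = a) (h2 : ∀ r, σ (σ r) = r) (hA : Aniso σ M)
    (g : UG (sX σ) (hyp (MX M))) (h : g.1.1 (Sum.inl 1) (Sum.inl 0) = 0) : g ∈ NN M ha := by
  have h1 := col_hf g.2 (Sum.inl 0) (Sum.inl 0)
  have h3 : hyp (MX M) (Sum.inl 0) (Sum.inl 0) = 0 := by simp [hyp]
  rw [h, map_zero, zero_mul, mul_zero, zero_add, zero_add, h3] at h1
  have h4 := aniso_X hA _ h1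
  have h5 := col_hf g.2 (Sum.inl 0) (Sum.inl 1)
  have h6 : hyp (MX M) (Sum.inl 0) (Sum.inl 1) = 1 := by simp [hyp]
  rw [h, map_zero, zero_mul, add_zero, h4, hf_zero_left, add_zero, h6] at h5
  have h7 : g.1.1 (Sum.inl 0) (Sum.inl 0) * sX σ (g.1.1 (Sum.inl 1) (Sum.inl 1)) = 1 := by
    have h8 := congrArg (sX σ) h5
    rwa [map_mul, invX h2, map_one] at h8
  have h8 : IsUnit (g.1.1 (Sum.inl 0) (Sum.inl 0)) := IsUnit.of_mul_eq_one _ h7
  obtain ⟨l, hl, hl'⟩ := Polynomial.isUnit_iff.1 h8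
  refine line_mem ha g hl.ne_zero ?_
  ext1 j
  rw [col_apply]
  change _ = C l * e0 K[X] I j
  rcases j with j | j
  · fin_cases j
    · change g.1.1 (Sum.inl 0) (Sum.inl 0) = C l * e0 K[X] I (Sum.inl 0)
      rw [e0_self, mul_one, hl']
    · change g.1.1 (Sum.inl 1) (Sum.inl 0) = C l * e0 K[X] I (Sum.inl 1)
      rw [e0_ne (by simp), mul_zero, h]
  · rw [e0_ne (by simp), mul_zero]
    exact congrFun h4 j

theorem half {R : Type} [CommRing R] {τ : R →+* R} {N : Matrix I I R} (h2 : ∀ r, τ (τ r) = r)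
    (hM : ∀ a b, τ (N a b) = N b a) (i2 : R) (hi : 2 * i2 = 1) (x : I → R) :
    (-(i2 * hf τ N x x)) + τ (-(i2 * hf τ N x x)) + hf τ N x x = 0 := by
  have h3 : τ i2 = i2 := by
    have h4 : τ (2 * i2) = 1 := by rw [hi, map_one]
    rw [map_mul, map_ofNat] at h4
    calc τ i2 = (2 * i2) * τ i2 := by rw [hi, one_mul]
      _ = i2 * (2 * τ i2) := by ring
      _ = i2 := by rw [h4, mul_one]
  rw [map_neg, map_mul, h3, hf_symm h2 hM]
  linear_combination (-(hf τ N x x)) * hi

/-- the reduction step -/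
theorem step {a : K} (ha : σ a = a) (h2 : ∀ r, σ (σ r) = r) (hM : ∀ a b, σ (M a b) = M b a)
    (hA : Aniso σ M) (hchar : (2 : K) ≠ 0) (g : UG (sX σ) (hyp (MX M)))
    (hc : g.1.1 (Sum.inl 1) (Sum.inl 0) ≠ 0) :
    ∃ k ∈ NN M ha, (k * g).1.1 (Sum.inl 1) (Sum.inl 0) = 0 ∨
      ((k * g).1.1 (Sum.inl 1) (Sum.inl 0)).natDegree <
        (g.1.1 (Sum.inl 1) (Sum.inl 0)).natDegree := by
  set v : Fin 2 ⊕ I → K[X] := g.1.1 *ᵥ e0 K[X] I with hv
  have hv1 : v (Sum.inl 1) = g.1.1 (Sum.inl 1) (Sum.inl 0) := col_apply _ _ _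
  set c := g.1.1 (Sum.inl 1) (Sum.inl 0) with hcdef
  let x : I → K[X] := fun b => -(v (Sum.inr b) / c)
  have hi : (2 : K[X]) * C (2 : K)⁻¹ = 1 := by
    have h3 : (2 : K[X]) = C (2 : K) := (map_ofNat (C : K →+* K[X]) 2).symm
    rw [h3, ← C_mul, mul_inv_cancel₀ hchar, C_1]
  have hs := half (invX h2) (symX hM) (C (2 : K)⁻¹) hi x
  set s0 := -(C (2 : K)⁻¹ * hf (sX σ) (MX M) x x) with hs0
  let S := sgG (invX h2) (symX hM) x s0 hs
  set v' : Fin 2 ⊕ I → K[X] := sg (sX σ) (MX M) x s0 *ᵥ v with hv'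
  obtain ⟨w0, w1, w2⟩ := sg_vec (sX σ) (MX M) x s0 v
  rw [← hv'] at w0 w1 w2
  rw [hv1] at w1
  have w2' : ∀ b, v' (Sum.inr b) = v (Sum.inr b) % c := by
    intro b
    rw [w2, hv1]
    change v (Sum.inr b) + -(v (Sum.inr b) / c) * c = _
    rw [EuclideanDomain.mod_eq_sub_mul_div]
    ring
  -- isotropy
  have iso : sX σ (v' (Sum.inl 0)) * c + sX σ c * v' (Sum.inl 0) +
      hf (sX σ) (MX M) (fun b => v' (Sum.inr b)) (fun b => v' (Sum.inr b)) = 0 := by
    have h3 := col_hf (S * g).2 (Sum.inl 0) (Sum.inl 0)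
    have h4 : ∀ j, (S * g).1.1 j (Sum.inl 0) = v' j := by
      intro j
      refine (col_apply _ _ _).symm.trans ?_
      change ((S.1.1 * g.1.1) *ᵥ e0 K[X] I) j = _
      rw [← Matrix.mulVec_mulVec]
      rfl
    have h5 : hyp (MX M) (Sum.inl 0) (Sum.inl 0) = 0 := by simp [hyp]
    rw [h5] at h3
    simp only [h4] at h3
    rw [w1] at h3
    exact h3
  set z := v' (Sum.inl 0) / c with hz
  set r := v' (Sum.inl 0) % c with hr
  have hzr : v' (Sum.inl 0) = z * c + r := by
    rw [hz, hr, mul_comm]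
    exact (EuclideanDomain.div_add_mod _ _).symm
  have hrd : r.degree < c.degree := Polynomial.degree_mod_lt _ hc
  have hr' : r = 0 ∨ r.natDegree < c.natDegree := by
    by_cases h0 : r = 0
    · exact Or.inl h0
    · exact Or.inr (natDegree_lt_natDegree h0 hrd)
  have hzz : z + sX σ z = 0 := by
    by_contra hne
    have e1 : (z + sX σ z) * (c * sX σ c) = -(sX σ r * c + sX σ c * r +
        hf (sX σ) (MX M) (fun b => v' (Sum.inr b)) (fun b => v' (Sum.inr b))) := by
      rw [hzr, map_add, map_mul] at iso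
      linear_combination iso
    have hsc : (sX σ c).natDegree = c.natDegree := natDegree_map σ
    have hsc0 : sX σ c ≠ 0 := by
      intro h0
      apply hc
      have h3 := congrArg (sX σ) h0
      rwa [invX h2, map_zero] at h3
    have e2 : ((z + sX σ z) * (c * sX σ c)).natDegree =
        (z + sX σ z).natDegree + (c.natDegree + c.natDegree) := by
      rw [natDegree_mul hne (mul_ne_zero hc hsc0), natDegree_mul hc hsc0, hsc]
    rcases Nat.eq_zero_or_pos c.natDegree with hn | hn
    · have hr0 : r = 0 := by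
        rcases hr' with h3 | h3
        · exact h3
        · omega
      have hv0 : (fun b => v' (Sum.inr b)) = (0 : I → K[X]) := by
        ext1 b
        rw [w2']
        by_contra h3
        have h4 := natDegree_lt_natDegree h3 (Polynomial.degree_mod_lt (v (Sum.inr b)) hc)
        omega
      rw [hr0, hv0, hf_zero_left, map_zero, zero_mul, mul_zero, add_zero, add_zero, neg_zero] at e1
      exact mul_ne_zero hne (mul_ne_zero hc hsc0) e1
    · have hrn : r.natDegree < c.natDegree := natDegree_mod_lt _ hn.ne'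
      have e3 : (sX σ r * c + sX σ c * r + hf (sX σ) (MX M) (fun b => v' (Sum.inr b))
          (fun b => v' (Sum.inr b))).natDegree < c.natDegree + c.natDegree := by
        have hsr : (sX σ r).natDegree = r.natDegree := natDegree_map σ
        have e4 : (sX σ r * c).natDegree < c.natDegree + c.natDegree := by
          refine natDegree_mul_le.trans_lt ?_
          rw [hsr]
          omega
        have e5 : (sX σ c * r).natDegree < c.natDegree + c.natDegree := by
          refine natDegree_mul_le.trans_lt ?_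
          rw [hsc]
          omega
        have e6 : (hf (sX σ) (MX M) (fun b => v' (Sum.inr b))
            (fun b => v' (Sum.inr b))).natDegree < c.natDegree + c.natDegree := by
          have h3 : ∀ b, (v' (Sum.inr b)).natDegree ≤ c.natDegree - 1 := by
            intro b
            rw [w2']
            have h4 := natDegree_mod_lt (v (Sum.inr b)) hn.ne'
            omega
          have h4 := natDegree_hf σ M (fun b => v' (Sum.inr b)) (fun b => v' (Sum.inr b))
            (c.natDegree - 1) (c.natDegree - 1) h3 h3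
          omega
        exact (natDegree_add_le _ _).trans_lt (max_lt ((natDegree_add_le _ _).trans_lt
          (max_lt e4 e5)) e6)
      rw [e1, natDegree_neg] at e2
      omega
  have hsz : (-z) + sX σ (-z) + hf (sX σ) (MX M) (0 : I → K[X]) 0 = 0 := by
    rw [hf_zero_left, map_neg]
    linear_combination -hzz
  let T := sgG (invX h2) (symX hM) (0 : I → K[X]) (-z) hsz
  refine ⟨wey (sX σ) (MX M) * T * S, mul_mem (mul_mem ?_ (sg_mem ha h2 hM _ _ _))
    (sg_mem ha h2 hM _ _ _), ?_⟩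
  · rw [← wey_ci]
    exact Subgroup.subset_closure (Or.inl ⟨_, rfl⟩)
  · have h3 : (wey (sX σ) (MX M) * T * S * g).1.1 (Sum.inl 1) (Sum.inl 0) = r := by
      refine (col_apply _ _ _).symm.trans ?_
      change (((wey (sX σ) (MX M)).1.1 * T.1.1 * S.1.1 * g.1.1) *ᵥ e0 K[X] I) _ = _
      rw [← Matrix.mulVec_mulVec, ← Matrix.mulVec_mulVec, ← Matrix.mulVec_mulVec,
        (wey_vec _).2.1]
      change (sg (sX σ) (MX M) 0 (-z) *ᵥ v') (Sum.inl 0) = r
      rw [(sg_vec (sX σ) (MX M) 0 (-z) v').1, hf_zero_left, w1, hzr]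
      ring
    rw [h3]
    exact hr'

/-- generation -/
theorem gen {a : K} (ha : σ a = a) (h2 : ∀ r, σ (σ r) = r) (hM : ∀ a b, σ (M a b) = M b a)
    (hA : Aniso σ M) (hchar : (2 : K) ≠ 0) (n : ℕ) : ∀ g : UG (sX σ) (hyp (MX M)),
    (g.1.1 (Sum.inl 1) (Sum.inl 0) = 0 ∨ (g.1.1 (Sum.inl 1) (Sum.inl 0)).natDegree < n) →
      g ∈ NN M ha := by
  induction n with
  | zero =>
    intro g hg
    rcases hg with hg | hg
    · exact zero_mem ha h2 hA g hg
    · omega
  | succ n ih =>
    intro g hg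
    by_cases h0 : g.1.1 (Sum.inl 1) (Sum.inl 0) = 0
    · exact zero_mem ha h2 hA g h0
    · rcases hg with hg | hg
      · exact absurd hg h0
      · obtain ⟨k, hk, hk'⟩ := step ha h2 hM hA hchar g h0
        have h3 : k * g ∈ NN M ha := ih _ (hk'.imp id (fun h => by omega))
        have h4 : g = k⁻¹ * (k * g) := by group
        rw [h4]
        exact mul_mem (inv_mem hk) h3

end Pool.Agent.Q143.UG
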