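import Pool.Agent.Q143.UG.Gen2
import Mathlib.RingTheory.Localization.FractionRing
import Mathlib.Algebra.MvPolynomial.Equiv

/-!
# The Farrell–Jones conjecture for isometry groups over polynomial rings
-/

set_option autoImplicit false
set_option linter.unusedSectionVars false
set_option linter.dupNamespace false
set_option linter.unusedSimpArgs false
set_option linter.unusedVariables false

namespace Pool.Agent.Q143.UG

open Matrix Polynomial Pool.Agent.Y462.SS Pool.Agent.Q152.WP

variable {Cl : ∀ (G : Type) [Group G], Prop}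

/-- the theorem for fields -/
theorem ug_mem (hC : Closed Cl) (hE : ExtClosed Cl)
    (hS : ∀ (G : Type) [Group G], Group.IsSolvable G → Cl G) {K I : Type} [Field K] [Fintype I]
    [DecidableEq I] [Nonempty I] {σ : K →+* K} {M : Matrix I I K} (h2 : ∀ r, σ (σ r) = r)
    (hM : ∀ a b, σ (M a b) = M b a) (hA : Aniso σ M) (hchar : (2 : K) ≠ 0) {a : K} (ha : σ a = a)
    (Γ : Subgroup (UG (sX σ) (hyp (MX M)))) (hQ : Cl (Γ.map (ev σ M ha))) : Cl Γ := by
  refine ind_sol' hC hE hS (BB σ M) (ci σ M) (UU σ M ha) (uu_sol hA ha)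
    (fun b hb u hu => uu_conj ha b hb u hu) (actv.comp (Subgroup.subtype _)) (X0 K I) ?_ ?_ ?_
    (bb_three h2 hM hA hchar) (ev σ M ha) (fun g => ev_ci ha g) (fun u hu => hu.2) Γ ?_ hQ
  · refine ⟨Pi.single (Sum.inl 0) X, fun j hj => ?_⟩
    rw [Pi.single_eq_of_ne hj, Pi.single_eq_same, natDegree_zero, natDegree_X]
    exact one_pos
  · intro g hg v hv h
    obtain ⟨t1, t2⟩ := ten1 (σ := σ) (M := M) g hv
    have t3 := t2 (fun h => hg (bb_of hA h))
    have h3 := h (Sum.inl 1) (by simp)
    have h4 := t1 (Sum.inl 0)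
    change (((ci σ M g).1.1 *ᵥ v) (Sum.inl 1)).natDegree <
      (((ci σ M g).1.1 *ᵥ v) (Sum.inl 0)).natDegree at h3
    omega
  · intro g hg u hu hu1 v hv
    exact ten2 hA ha g hg u hu hu1 hv
  · intro g _
    exact gen ha h2 hM hA hchar ((g.1.1 (Sum.inl 1) (Sum.inl 0)).natDegree + 1) g
      (Or.inr (Nat.lt_succ_self _))

section Map

variable {R S I : Type} [CommRing R] [CommRing S] [Fintype I] [DecidableEq I]

theorem mapU_inj {σ : R →+* R} {τ : S →+* S} {M : Matrix I I R} {M' : Matrix I I S}
    {φ : R →+* S} (hφ : ∀ r, φ (σ r) = τ (φ r)) (hM : ∀ a b, M' a b = φ (M a b))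
    (hi : Function.Injective φ) : Function.Injective (mapU (M := M) (M' := M') φ hφ hM) := by
  intro g h hgh
  apply Subtype.ext
  apply Units.ext
  ext a b
  apply hi
  rw [← mapU_apply φ hφ hM g a b, ← mapU_apply φ hφ hM h a b, hgh]

theorem hf_map {σ : R →+* R} {τ : S →+* S} {M : Matrix I I R} {M' : Matrix I I S}
    {φ : R →+* S} (hφ : ∀ r, φ (σ r) = τ (φ r)) (hM : ∀ a b, M' a b = φ (M a b)) (x y : I → R) :
    hf τ M' (fun a => φ (x a)) (fun a => φ (y a)) = φ (hf σ M x y) := by
  unfold hf
  rw [map_sum]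
  refine Finset.sum_congr rfl (fun a _ => ?_)
  rw [map_sum]
  refine Finset.sum_congr rfl (fun b _ => ?_)
  rw [map_mul, map_mul, hφ, hM]

theorem aniso_of {σ : R →+* R} {τ : S →+* S} {M : Matrix I I R} {M' : Matrix I I S}
    {φ : R →+* S} (hφ : ∀ r, φ (σ r) = τ (φ r)) (hM : ∀ a b, M' a b = φ (M a b))
    (hi : Function.Injective φ) (hA : Aniso τ M') : Aniso σ M := by
  intro y hy
  have h1 := hA (fun a => φ (y a)) (by rw [hf_map hφ hM, hy, map_zero])
  ext1 a
  apply hi
  rw [Pi.zero_apply, map_zero]
  exact congrFun h1 a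

theorem cl_map (hC : Closed Cl) {G H : Type} [Group G] [Group H] (f : G →* H)
    (hf : Function.Injective f) (Γ : Subgroup G) : Cl (Γ.map f) ↔ Cl Γ := by
  refine ⟨fun h => hC.of_injective _ _ (f.subgroupMap Γ) ?_ h, fun h =>
    hC.of_injective _ _ (Γ.equivMapOfInjective f hf).symm.toMonoidHom
      (Γ.equivMapOfInjective f hf).symm.injective h⟩
  intro a b hab
  apply Subtype.ext
  exact hf (congrArg Subtype.val hab)

end Map

section Dom

variable {R I : Type} [CommRing R] [IsDomain R] [Fintype I] [DecidableEq I] {σ : R →+* R}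
  {M : Matrix I I R}

theorem inj_of (h2 : ∀ r, σ (σ r) = r) : Function.Injective σ := by
  intro a b hab
  rw [← h2 a, ← h2 b, hab]

/-- the involution of the field of fractions -/
noncomputable def sF (h2 : ∀ r, σ (σ r) = r) : FractionRing R →+* FractionRing R :=
  IsFractionRing.map (K := FractionRing R) (L := FractionRing R) (inj_of h2)

theorem sF_alg (h2 : ∀ r, σ (σ r) = r) (r : R) :
    algebraMap R (FractionRing R) (σ r) = sF h2 (algebraMap R (FractionRing R) r) := by
  unfold sF IsFractionRing.map
  exact (IsLocalization.map_eq (M := nonZeroDivisors R) (Q := FractionRing R) _ r).symm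

theorem sF_inv (h2 : ∀ r, σ (σ r) = r) (x : FractionRing R) : sF h2 (sF h2 x) = x := by
  have h : (sF h2).comp (sF h2) = RingHom.id _ := by
    refine IsLocalization.ringHom_ext (nonZeroDivisors R) ?_
    ext r
    change sF h2 (sF h2 (algebraMap R (FractionRing R) r)) = algebraMap R (FractionRing R) r
    rw [← sF_alg, ← sF_alg, h2]
  exact congrArg (fun f => f x) h

theorem aniso_F (h2 : ∀ r, σ (σ r) = r) (hA : Aniso σ M) :
    Aniso (sF h2) (M.map (algebraMap R (FractionRing R))) := by
  intro y hy
  obtain ⟨d, hd⟩ := IsLocalization.exist_integer_multiples_of_finite (nonZeroDivisors R) y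
  choose r hr using hd
  have h1 : ∀ b, algebraMap R (FractionRing R) (r b) = algebraMap R (FractionRing R) d.1 * y b := by
    intro b
    rw [hr b, Algebra.smul_def]
  have h3 : hf (sF h2) (M.map (algebraMap R (FractionRing R)))
      (fun b => algebraMap R (FractionRing R) (r b)) (fun b => algebraMap R (FractionRing R) (r b)) =
      sF h2 (algebraMap R (FractionRing R) d.1) * algebraMap R (FractionRing R) d.1 *
        hf (sF h2) (M.map (algebraMap R (FractionRing R))) y y := by
    unfold hf
    rw [Finset.mul_sum]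
    refine Finset.sum_congr rfl (fun b _ => ?_)
    rw [Finset.mul_sum]
    refine Finset.sum_congr rfl (fun c _ => ?_)
    change sF h2 (algebraMap R (FractionRing R) (r b)) * _ * algebraMap R (FractionRing R) (r c) = _
    rw [h1, h1, map_mul]
    ring
  rw [hy, mul_zero, hf_map (M := M) (M' := M.map (algebraMap R (FractionRing R))) (sF_alg h2)
    (fun _ _ => rfl)] at h3
  have h4 : hf σ M r r = 0 := by
    apply IsFractionRing.injective R (FractionRing R)
    rw [map_zero]
    exact h3
  have h5 := hA r h4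
  ext1 b
  have h6 := h1 b
  rw [congrFun h5 b, Pi.zero_apply, map_zero] at h6
  rcases mul_eq_zero.1 h6.symm with h7 | h7
  · exfalso
    have h8 : d.1 = 0 := by
      apply IsFractionRing.injective R (FractionRing R)
      rw [map_zero]
      exact h7
    exact nonZeroDivisors.ne_zero d.2 h8
  · exact h7

/-- the theorem for domains -/
theorem dom_mem (hC : Closed Cl) (hE : ExtClosed Cl)
    (hS : ∀ (G : Type) [Group G], Group.IsSolvable G → Cl G) [Nonempty I]
    (h2 : ∀ r, σ (σ r) = r) (hM : ∀ a b, σ (M a b) = M b a) (hA : Aniso σ M) (hchar : (2 : R) ≠ 0)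
    {a : R} (ha : σ a = a) (Γ : Subgroup (UG (sX σ) (hyp (MX M)))) (hQ : Cl (Γ.map (ev σ M ha))) :
    Cl Γ := by
  have hj : ∀ p : R[X], mapRingHom (algebraMap R (FractionRing R)) (sX σ p) =
      sX (sF h2) (mapRingHom (algebraMap R (FractionRing R)) p) := by
    intro p
    change (p.map σ).map _ = (p.map _).map _
    rw [Polynomial.map_map, Polynomial.map_map]
    congr 1
    ext1 r
    exact sF_alg h2 r
  let j : UG (sX σ) (hyp (MX M)) →*
      UG (sX (sF h2)) (hyp (MX (M.map (algebraMap R (FractionRing R))))) :=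
    mapU (mapRingHom (algebraMap R (FractionRing R))) hj
      (fun b c => (Polynomial.map_C (algebraMap R (FractionRing R))).symm)
  let j0 : UG σ (hyp M) →* UG (sF h2) (hyp (M.map (algebraMap R (FractionRing R)))) :=
    mapU (algebraMap R (FractionRing R)) (sF_alg h2) (fun _ _ => rfl)
  have hji : Function.Injective j := mapU_inj _ _ (by
    intro p q hpq
    exact Polynomial.map_injective _ (IsFractionRing.injective R (FractionRing R)) hpq)
  have hj0 : Function.Injective j0 := mapU_inj _ _ (IsFractionRing.injective R (FractionRing R))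
  have ha' : sF h2 (algebraMap R (FractionRing R) a) = algebraMap R (FractionRing R) a := by
    rw [← sF_alg, ha]
  have hcomm : (ev (sF h2) (M.map (algebraMap R (FractionRing R))) ha').comp j =
      j0.comp (ev σ M ha) := by
    ext1 g
    apply Subtype.ext
    apply Units.ext
    ext b c
    change ((g.1.1 b c).map (algebraMap R (FractionRing R))).eval
      (algebraMap R (FractionRing R) a) = algebraMap R (FractionRing R) ((g.1.1 b c).eval a)
    rw [eval_map, eval₂_at_apply]
  rw [← cl_map hC j hji]
  refine ug_mem hC hE hS (sF_inv h2) ?_ (aniso_F h2 hA) ?_ ha' _ ?_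
  · intro b c
    change sF h2 (algebraMap R (FractionRing R) (M b c)) = algebraMap R (FractionRing R) (M c b)
    rw [← sF_alg, hM]
  · intro h
    apply hchar
    apply IsFractionRing.injective R (FractionRing R)
    rw [map_zero, map_ofNat]
    exact h
  · rw [Subgroup.map_map, hcomm, ← Subgroup.map_map, cl_map hC j0 hj0]
    exact hQ

end Dom

end Pool.Agent.Q143.UG
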