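import Pool.Agent.Q143.UG.Main

/-!
# The Farrell–Jones conjecture for isometry groups over polynomial rings in several variables
-/

set_option autoImplicit false
set_option linter.unusedSectionVars false
set_option linter.dupNamespace false
set_option linter.unusedSimpArgs false
set_option linter.unusedVariables false

namespace Pool.Agent.Q143.UG

open Matrix Pool.Agent.Y462.SS Pool.Agent.Q152.WP

section Mv

variable {R I : Type} [CommRing R] [Fintype I] [DecidableEq I]

/-- the ring endomorphism of the polynomial ring in `n` variables -/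
noncomputable abbrev sM (σ : R →+* R) (n : ℕ) :
    MvPolynomial (Fin n) R →+* MvPolynomial (Fin n) R := MvPolynomial.map σ

/-- the Gram matrix over the polynomial ring in `n` variables -/
noncomputable abbrev MM (M : Matrix I I R) (n : ℕ) : Matrix I I (MvPolynomial (Fin n) R) :=
  M.map (MvPolynomial.C : R →+* MvPolynomial (Fin n) R)

theorem eval_sM (σ : R →+* R) {n : ℕ} {x : Fin n → R} (hx : ∀ i, σ (x i) = x i)
    (p : MvPolynomial (Fin n) R) :
    MvPolynomial.eval x (sM σ n p) = σ (MvPolynomial.eval x p) := by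
  have h : (MvPolynomial.eval x).comp (sM σ n) = σ.comp (MvPolynomial.eval x) := by
    refine MvPolynomial.ringHom_ext ?_ ?_
    · intro r
      simp
    · intro i
      simp [hx]
  exact congrArg (fun f => f p) h

/-- specialisation at a point -/
noncomputable def evM (σ : R →+* R) (M : Matrix I I R) {n : ℕ} (x : Fin n → R)
    (hx : ∀ i, σ (x i) = x i) : UG (sM σ n) (hyp (MM M n)) →* UG σ (hyp M) :=
  mapU (MvPolynomial.eval x) (eval_sM σ hx) (fun _ _ => (MvPolynomial.eval_C _).symm)

variable {σ : R →+* R} {M : Matrix I I R}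

theorem invM (h2 : ∀ r, σ (σ r) = r) (n : ℕ) (p : MvPolynomial (Fin n) R) :
    sM σ n (sM σ n p) = p := by
  have h : (sM σ n).comp (sM σ n) = RingHom.id _ := by
    refine MvPolynomial.ringHom_ext ?_ ?_
    · intro r
      simp [h2]
    · intro i
      simp
  exact congrArg (fun f => f p) h

theorem symM (hM : ∀ a b, σ (M a b) = M b a) (n : ℕ) (a b : I) :
    sM σ n (MM M n a b) = MM M n b a := by
  change MvPolynomial.map σ (MvPolynomial.C (M a b)) = MvPolynomial.C (M b a)
  rw [MvPolynomial.map_C, hM]

theorem eval_zero_inj (x : Fin 0 → R) :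
    Function.Injective (MvPolynomial.eval x : MvPolynomial (Fin 0) R →+* R) := by
  intro p q hpq
  have h : ∀ p : MvPolynomial (Fin 0) R, p = MvPolynomial.C (MvPolynomial.eval x p) := by
    intro p
    obtain ⟨r, rfl⟩ := MvPolynomial.C_surjective (Fin 0) p
    rw [MvPolynomial.eval_C]
  rw [h p, h q, hpq]

/-- the isomorphism used for the induction -/
noncomputable abbrev fs (R : Type) [CommRing R] (n : ℕ) :
    MvPolynomial (Fin (n + 1)) R →+* Polynomial (MvPolynomial (Fin n) R) :=
  (MvPolynomial.finSuccEquiv R n).toRingEquiv.toRingHom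

theorem fs_C (n : ℕ) (r : R) :
    fs R n (MvPolynomial.C r) = Polynomial.C (MvPolynomial.C r) := by
  change MvPolynomial.finSuccEquiv R n (MvPolynomial.C r) = _
  rw [MvPolynomial.finSuccEquiv_apply, MvPolynomial.coe_eval₂Hom, MvPolynomial.eval₂_C]
  rfl

theorem fs_X0 (n : ℕ) : fs R n (MvPolynomial.X 0) = Polynomial.X :=
  MvPolynomial.finSuccEquiv_X_zero

theorem fs_Xs (n : ℕ) (i : Fin n) :
    fs R n (MvPolynomial.X i.succ) = Polynomial.C (MvPolynomial.X i) :=
  MvPolynomial.finSuccEquiv_X_succ

theorem fs_s (σ : R →+* R) (n : ℕ) (p : MvPolynomial (Fin (n + 1)) R) :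
    fs R n (sM σ (n + 1) p) = sX (sM σ n) (fs R n p) := by
  have h : (fs R n).comp (sM σ (n + 1)) = (sX (sM σ n)).comp (fs R n) := by
    refine MvPolynomial.ringHom_ext ?_ ?_
    · intro r
      rw [RingHom.comp_apply, RingHom.comp_apply, fs_C, MvPolynomial.map_C, fs_C]
      change _ = (Polynomial.C (MvPolynomial.C r)).map (sM σ n)
      rw [Polynomial.map_C, MvPolynomial.map_C]
    · intro i
      rw [RingHom.comp_apply, RingHom.comp_apply, MvPolynomial.map_X]
      refine Fin.cases ?_ (fun i => ?_) i
      · rw [fs_X0]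
        change _ = (Polynomial.X).map (sM σ n)
        rw [Polynomial.map_X]
      · rw [fs_Xs]
        change _ = (Polynomial.C (MvPolynomial.X i)).map (sM σ n)
        rw [Polynomial.map_C, MvPolynomial.map_X]
  exact congrArg (fun f => f p) h

theorem fs_inj (n : ℕ) : Function.Injective (fs R n) :=
  (MvPolynomial.finSuccEquiv R n).injective

theorem fs_M (M : Matrix I I R) (n : ℕ) (a b : I) :
    MX (MM M n) a b = fs R n (MM M (n + 1) a b) := by
  change Polynomial.C (MvPolynomial.C (M a b)) = fs R n (MvPolynomial.C (M a b))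
  rw [fs_C]

theorem aniso_M (hA : Aniso σ M) (n : ℕ) : Aniso (sM σ n) (MM M n) := by
  induction n with
  | zero =>
    exact aniso_of (eval_sM σ (x := fun i => i.elim0) (fun i => i.elim0))
      (fun _ _ => (MvPolynomial.eval_C _).symm) (eval_zero_inj _) hA
  | succ n ih => exact aniso_of (fs_s σ n) (fs_M M n) (fs_inj n) (aniso_X ih)

/-- the theorem for several variables -/
theorem mv_mem {Cl : ∀ (G : Type) [Group G], Prop} (hC : Closed Cl) (hE : ExtClosed Cl)
    (hS : ∀ (G : Type) [Group G], Group.IsSolvable G → Cl G) [IsDomain R] [Nonempty I]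
    (h2 : ∀ r, σ (σ r) = r) (hM : ∀ a b, σ (M a b) = M b a) (hA : Aniso σ M)
    (hchar : (2 : R) ≠ 0) (n : ℕ) : ∀ (x : Fin n → R) (hx : ∀ i, σ (x i) = x i)
    (Γ : Subgroup (UG (sM σ n) (hyp (MM M n)))), Cl (Γ.map (evM σ M x hx)) → Cl Γ := by
  induction n with
  | zero =>
    intro x hx Γ hQ
    have hi : Function.Injective (evM σ M x hx) := mapU_inj _ _ (eval_zero_inj x)
    rwa [cl_map hC _ hi] at hQ
  | succ n ih =>
    intro x hx Γ hQ
    let j : UG (sM σ (n + 1)) (hyp (MM M (n + 1))) →* UG (sX (sM σ n)) (hyp (MX (MM M n))) :=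
      mapU (fs R n) (fs_s σ n) (fs_M M n)
    have hj : Function.Injective j := mapU_inj _ _ (fs_inj n)
    have ha : sM σ n (MvPolynomial.C (x 0)) = MvPolynomial.C (x 0) := by
      rw [MvPolynomial.map_C, hx]
    have hcomm : ((evM σ M (fun i => x i.succ) (fun i => hx i.succ)).comp
        (ev (sM σ n) (MM M n) ha)).comp j = evM σ M x hx := by
      ext1 g
      apply Subtype.ext
      apply Units.ext
      ext b c
      change MvPolynomial.eval (fun i => x i.succ) ((fs R n (g.1.1 b c)).eval
        (MvPolynomial.C (x 0))) = MvPolynomial.eval x (g.1.1 b c)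
      have h : ((MvPolynomial.eval (fun i : Fin n => x i.succ)).comp (Polynomial.evalRingHom
          (MvPolynomial.C (x 0)))).comp (fs R n) = MvPolynomial.eval x := by
        refine MvPolynomial.ringHom_ext ?_ ?_
        · intro r
          rw [RingHom.comp_apply, fs_C]
          simp
        · intro i
          rw [RingHom.comp_apply]
          refine Fin.cases ?_ (fun i => ?_) i
          · rw [fs_X0]
            simp
          · rw [fs_Xs]
            simp
      exact congrArg (fun f => f (g.1.1 b c)) h
    rw [← cl_map hC j hj]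
    have hc2 : (2 : MvPolynomial (Fin n) R) ≠ 0 := by
      intro h
      apply hchar
      apply MvPolynomial.C_injective (Fin n) R
      rw [map_ofNat, map_zero]
      exact h
    refine dom_mem hC hE hS (invM h2 n) (symM hM n) (aniso_M hA n) hc2 ha _ ?_
    refine ih (fun i => x i.succ) (fun i => hx i.succ) _ ?_
    rw [Subgroup.map_map, Subgroup.map_map, hcomm]
    exact hQ

/-- the equivalence -/
theorem mv_iff' {Cl : ∀ (G : Type) [Group G], Prop} (hC : Closed Cl) (hE : ExtClosed Cl)
    (hS : ∀ (G : Type) [Group G], Group.IsSolvable G → Cl G) [IsDomain R] [Nonempty I]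
    (h2 : ∀ r, σ (σ r) = r) (hM : ∀ a b, σ (M a b) = M b a) (hA : Aniso σ M)
    (hchar : (2 : R) ≠ 0) (n : ℕ) :
    Cl (UG (sM σ n) (hyp (MM M n))) ↔ Cl (UG σ (hyp M)) := by
  constructor
  · intro h
    refine hC.of_injective _ _ (mapU (M := M) (M' := MM M n) (τ := sM σ n)
      (MvPolynomial.C : R →+* MvPolynomial (Fin n) R)
      (fun r => (MvPolynomial.map_C σ r).symm) (fun _ _ => rfl)) ?_ h
    exact mapU_inj _ _ (MvPolynomial.C_injective (Fin n) R)
  · intro h
    have hT : Cl (⊤ : Subgroup (UG (sM σ n) (hyp (MM M n)))) := by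
      refine mv_mem hC hE hS h2 hM hA hchar n (fun _ => 0) (fun _ => map_zero σ) _ ?_
      exact hC.of_injective _ _ (Subgroup.subtype _) (Subgroup.subtype_injective _) h
    refine hC.of_injective _ (⊤ : Subgroup (UG (sM σ n) (hyp (MM M n))))
      (Subgroup.topEquiv.symm.toMonoidHom) ?_ hT
    exact Subgroup.topEquiv.symm.injective

end Mv

end Pool.Agent.Q143.UG
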