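import Pool.Agent.Q143.UG.Sieg
import Mathlib.Algebra.Polynomial.Div
import Mathlib.Algebra.Polynomial.FieldDivision
import Mathlib.Algebra.Polynomial.BigOperators

/-!
# Anisotropic hermitian forms over polynomial rings
-/

set_option autoImplicit false
set_option linter.unusedSectionVars false
set_option linter.dupNamespace false
set_option linter.unusedSimpArgs false

namespace Pool.Agent.Q143.UG

open Matrix Polynomial

variable {K I : Type} [CommRing K] [Fintype I] [DecidableEq I] (σ : K →+* K) (M : Matrix I I K)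

/-- the ring endomorphism of the polynomial ring -/
noncomputable abbrev sX : K[X] →+* K[X] := Polynomial.mapRingHom σ

/-- the Gram matrix over the polynomial ring -/
noncomputable abbrev MX : Matrix I I K[X] := M.map (C : K →+* K[X])

theorem natDegree_hf (x y : I → K[X]) (m n : ℕ) (hx : ∀ b, (x b).natDegree ≤ m)
    (hy : ∀ b, (y b).natDegree ≤ n) : (hf (sX σ) (MX M) x y).natDegree ≤ m + n := by
  unfold hf
  refine natDegree_sum_le_of_forall_le _ _ (fun a _ => ?_)
  refine natDegree_sum_le_of_forall_le _ _ (fun b _ => ?_)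
  refine natDegree_mul_le.trans (add_le_add ?_ (hy b))
  change ((x a).map σ * C (M a b)).natDegree ≤ m
  exact (natDegree_mul_C_le _ _).trans (natDegree_map_le.trans (hx a))

theorem coeff_hf (x y : I → K[X]) (m n : ℕ) (hx : ∀ b, (x b).natDegree ≤ m)
    (hy : ∀ b, (y b).natDegree ≤ n) : (hf (sX σ) (MX M) x y).coeff (m + n) =
      hf σ M (fun b => (x b).coeff m) (fun b => (y b).coeff n) := by
  unfold hf
  rw [finsetSum_coeff]
  refine Finset.sum_congr rfl (fun a _ => ?_)
  rw [finsetSum_coeff]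
  refine Finset.sum_congr rfl (fun b _ => ?_)
  change ((x a).map σ * C (M a b) * y b).coeff (m + n) = _
  rw [coeff_mul_add_eq_of_natDegree_le ((natDegree_mul_C_le _ _).trans
    (natDegree_map_le.trans (hx a))) (hy b), coeff_mul_C, coeff_map]

theorem maxd (x : I → K[X]) : (∀ b, (x b).natDegree = 0) ∨
    ∃ m, 0 < m ∧ (∀ b, (x b).natDegree ≤ m) ∧ ∃ b, (x b).coeff m ≠ 0 := by
  by_cases h : ∀ b, (x b).natDegree = 0
  · exact Or.inl h
  · right
    push Not at h
    obtain ⟨b0, hb0⟩ := h
    obtain ⟨b, -, hb⟩ := Finset.exists_max_image Finset.univ (fun b => (x b).natDegree)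
      ⟨b0, Finset.mem_univ _⟩
    refine ⟨(x b).natDegree, ?_, fun c => hb c (Finset.mem_univ _), b, ?_⟩
    · exact (Nat.pos_of_ne_zero hb0).trans_le (hb b0 (Finset.mem_univ _))
    · intro h0
      have h1 : (x b).leadingCoeff = 0 := h0
      rw [leadingCoeff_eq_zero] at h1
      have h2 := hb b0 (Finset.mem_univ _)
      rw [h1, natDegree_zero] at h2
      exact hb0 (Nat.le_zero.1 h2)

variable {σ M}

/-- the form is anisotropic -/
def Aniso {R J : Type} [CommRing R] [Fintype J] [DecidableEq J] (σ : R →+* R)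
    (M : Matrix J J R) : Prop := ∀ y : J → R, hf σ M y y = 0 → y = 0

theorem aniso_X (hA : Aniso σ M) : Aniso (sX σ) (MX M) := by
  intro x hx
  rcases maxd x with h | ⟨m, hm, hm1, b, hb⟩
  · have h1 := coeff_hf σ M x x 0 0 (fun b => (h b).le) (fun b => (h b).le)
    rw [hx, coeff_zero] at h1
    have h2 := hA _ h1.symm
    ext1 b
    have h3 : x b = C ((x b).coeff 0) := eq_C_of_natDegree_eq_zero (h b)
    have h4 : (x b).coeff 0 = 0 := congrFun h2 b
    rw [h3, h4, C_0]
    rfl
  · have h1 := coeff_hf σ M x x m m hm1 hm1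
    rw [hx, coeff_zero] at h1
    exact absurd (congrFun (hA _ h1.symm) b) hb

/-- vectors with constant length are constant -/
theorem const_of (hA : Aniso σ M) (x : I → K[X]) (c : K) (hx : hf (sX σ) (MX M) x x = C c) (b : I) :
    (x b).natDegree = 0 := by
  rcases maxd x with h | ⟨m, hm, hm1, d, hd⟩
  · exact h b
  · have h1 := coeff_hf σ M x x m m hm1 hm1
    rw [hx, coeff_C, if_neg (by omega)] at h1
    exact absurd (congrFun (hA _ h1.symm) d) hd

theorem zero_of_eval {a : K} {p : K[X]} (h : p.natDegree = 0) (h0 : p.eval a = 0) : p = 0 := by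
  rw [eq_C_of_natDegree_eq_zero h, eval_C] at h0
  rw [eq_C_of_natDegree_eq_zero h, h0, C_0]

theorem big (hA : Aniso σ M) {a : K} (x : I → K[X]) (s : K[X])
    (hs : s + sX σ s + hf (sX σ) (MX M) x x = 0) (hx0 : ∀ b, (x b).eval a = 0)
    (hs0 : s.eval a = 0) (hne : ¬ (x = 0 ∧ s = 0)) :
    ∃ m, m < s.natDegree ∧ ∀ b, (x b).natDegree ≤ m := by
  rcases maxd x with h | ⟨m, hm, hm1, d, hd⟩
  · have h1 : x = 0 := funext fun b => zero_of_eval (h b) (hx0 b)
    refine ⟨0, ?_, fun b => (h b).le⟩
    refine Nat.pos_of_ne_zero (fun h2 => hne ⟨h1, zero_of_eval h2 hs0⟩)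
  · refine ⟨m, ?_, hm1⟩
    have h1 := coeff_hf σ M x x m m hm1 hm1
    have h2 : hf (sX σ) (MX M) x x = -(s + sX σ s) := by
      rw [add_comm] at hs
      exact eq_neg_of_add_eq_zero_left hs
    have h3 : s.coeff (m + m) ≠ 0 := by
      intro h4
      rw [h2, coeff_neg, coeff_add] at h1
      have h5 : (sX σ s).coeff (m + m) = σ (s.coeff (m + m)) := coeff_map σ (m + m)
      rw [h5, h4, map_zero, add_zero, neg_zero] at h1
      exact hd (congrFun (hA _ h1.symm) d)
    have h6 := le_natDegree_of_ne_zero h3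
    omega

end Pool.Agent.Q143.UG
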