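import Pool.Agent.Q143.UG.Form
import Mathlib.Tactic.LinearCombination
import Mathlib.Tactic.FinCases

/-!
# Siegel transformations
-/

set_option autoImplicit false
set_option linter.unusedSectionVars false
set_option linter.dupNamespace false
set_option linter.unusedSimpArgs false

namespace Pool.Agent.Q143.UG

open Matrix

variable {R I : Type} [CommRing R] [Fintype I] [DecidableEq I] {σ : R →+* R} {M : Matrix I I R}

theorem hf_symm (h2 : ∀ r, σ (σ r) = r) (hM : ∀ a b, σ (M a b) = M b a) (x y : I → R) :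
    σ (hf σ M x y) = hf σ M y x := by
  unfold hf
  rw [map_sum]
  simp_rw [map_sum, map_mul, h2, hM]
  rw [Finset.sum_comm]
  refine Finset.sum_congr rfl (fun a _ => Finset.sum_congr rfl (fun b _ => ?_))
  ring

/-- the Siegel transformations as elements of the isometry group -/
def sgG (h2 : ∀ r, σ (σ r) = r) (hM : ∀ a b, σ (M a b) = M b a) (x : I → R) (s : R)
    (hs : s + σ s + hf σ M x x = 0) : UG σ (hyp M) :=
  ⟨{ val := sg σ M x s
     inv := sg σ M (-x) (σ s)
     val_inv := by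
      rw [sg_mul, add_neg_cancel, hf_neg_right, sub_neg_eq_add, hs, sg_zero]
     inv_val := by
      rw [sg_mul, neg_add_cancel, hf_neg_left, sub_neg_eq_add, add_comm (σ s), hs, sg_zero] }, by
    apply mem_UG
    have hx : ∀ y : I → R, hf σ M y x = σ (hf σ M x y) := fun y => (hf_symm h2 hM x y).symm
    have e1 : ∀ c : Fin 2 ⊕ I, (fun a => (sg σ M x s *ᵥ (Pi.single c 1)) (Sum.inr a)) =
        (fun a => (Pi.single c 1 : Fin 2 ⊕ I → R) (Sum.inr a)) +
        (fun a => x a * (Pi.single c 1 : Fin 2 ⊕ I → R) (Sum.inl 1)) := by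
      intro c
      ext a
      exact (sg_vec σ M x s _).2.2 a
    have hadd : ∀ u v w : I → R, hf σ M u (v + w) = hf σ M u v + hf σ M u w := by
      intro u v w
      rw [← hf_symm h2 hM, hf_add_left, map_add, hf_symm h2 hM, hf_symm h2 hM]
    have hsm : ∀ (u : I → R) (c : R), hf σ M u (fun a => x a * c) = hf σ M u x * c := by
      intro u c
      unfold hf
      simp_rw [Finset.sum_mul]
      refine Finset.sum_congr rfl (fun a _ => Finset.sum_congr rfl (fun b _ => ?_))
      ring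
    have hsm' : ∀ (u : I → R) (c : R), hf σ M (fun a => x a * c) u = σ c * hf σ M x u := by
      intro u c
      rw [← hf_symm h2 hM, hsm, map_mul, hf_symm h2 hM, mul_comm]
    intro a b
    change hf σ (hyp M) (sg σ M x s *ᵥ (Pi.single a 1)) (sg σ M x s *ᵥ (Pi.single b 1)) = _
    rw [← hf_single σ (hyp M) a b, hf_hyp, hf_hyp, e1, e1, (sg_vec σ M x s _).1,
      (sg_vec σ M x s _).1, (sg_vec σ M x s _).2.1, (sg_vec σ M x s _).2.1, hf_add_left, hadd,
      hadd, hsm, hsm', hsm', hsm]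
    rw [hx (fun c => (Pi.single a 1 : Fin 2 ⊕ I → R) (Sum.inr c))]
    simp only [map_sub, map_add, map_mul]
    have hs' : hf σ M x x = -s - σ s := by linear_combination hs
    rw [hs']
    ring⟩

theorem sgG_val (h2 : ∀ r, σ (σ r) = r) (hM : ∀ a b, σ (M a b) = M b a) (x : I → R) (s : R)
    (hs : s + σ s + hf σ M x x = 0) : (sgG h2 hM x s hs).1.1 = sg σ M x s := rfl

/-- the isometry which exchanges the two isotropic basis vectors -/
def wey (σ : R →+* R) (M : Matrix I I R) : UG σ (hyp M) :=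
  ⟨{ val := Matrix.fromBlocks !![0, 1; 1, 0] 0 0 1
     inv := Matrix.fromBlocks !![0, 1; 1, 0] 0 0 1
     val_inv := by
      rw [Matrix.fromBlocks_multiply]
      simp only [Matrix.mul_zero, Matrix.zero_mul, add_zero, zero_add, Matrix.mul_one,
        Matrix.mul_fin_two, mul_zero, mul_one]
      rw [← Matrix.one_fin_two, Matrix.fromBlocks_one]
     inv_val := by
      rw [Matrix.fromBlocks_multiply]
      simp only [Matrix.mul_zero, Matrix.zero_mul, add_zero, zero_add, Matrix.mul_one,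
        Matrix.mul_fin_two, mul_zero, mul_one]
      rw [← Matrix.one_fin_two, Matrix.fromBlocks_one] }, by
    change ((Matrix.fromBlocks !![0, 1; 1, 0] 0 0 1 : Matrix (Fin 2 ⊕ I) (Fin 2 ⊕ I) R).map σ)ᵀ *
      hyp M * Matrix.fromBlocks !![0, 1; 1, 0] 0 0 1 = hyp M
    unfold hyp
    rw [Matrix.fromBlocks_map, Matrix.fromBlocks_transpose, Matrix.fromBlocks_multiply,
      Matrix.fromBlocks_multiply]
    have h1 : (!![0, 1; 1, 0] : Matrix (Fin 2) (Fin 2) R).map σ = !![0, 1; 1, 0] := by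
      ext a b
      fin_cases a <;> fin_cases b <;> simp
    have h3 : (!![0, 1; 1, 0] : Matrix (Fin 2) (Fin 2) R)ᵀ = !![0, 1; 1, 0] := by
      ext a b
      fin_cases a <;> fin_cases b <;> simp
    rw [h1, h3]
    simp⟩

theorem wey_vec (v : Fin 2 ⊕ I → R) :
    ((wey σ M).1.1 *ᵥ v) (Sum.inl 0) = v (Sum.inl 1) ∧
    ((wey σ M).1.1 *ᵥ v) (Sum.inl 1) = v (Sum.inl 0) ∧
    ∀ a, ((wey σ M).1.1 *ᵥ v) (Sum.inr a) = v (Sum.inr a) := by
  change ((Matrix.fromBlocks !![0, 1; 1, 0] 0 0 1 : Matrix (Fin 2 ⊕ I) (Fin 2 ⊕ I) R) *ᵥ v) _ = _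
    ∧ ((Matrix.fromBlocks !![0, 1; 1, 0] 0 0 1 : Matrix (Fin 2 ⊕ I) (Fin 2 ⊕ I) R) *ᵥ v) _ = _ ∧
    ∀ a, ((Matrix.fromBlocks !![0, 1; 1, 0] 0 0 1 : Matrix (Fin 2 ⊕ I) (Fin 2 ⊕ I) R) *ᵥ v) _ = _
  refine ⟨?_, ?_, ?_⟩
  · rw [Matrix.mulVec, dotProduct, Fintype.sum_sum_type, Fin.sum_univ_two]
    simp
  · rw [Matrix.mulVec, dotProduct, Fintype.sum_sum_type, Fin.sum_univ_two]
    simp
  · intro a
    rw [Matrix.mulVec, dotProduct, Fintype.sum_sum_type, Fin.sum_univ_two]
    simp [Matrix.one_apply]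

/-- the first column of an isometry -/
abbrev col0 (g : Matrix (Fin 2 ⊕ I) (Fin 2 ⊕ I) R) : Fin 2 ⊕ I → R := g *ᵥ (Pi.single (Sum.inl 0) 1)

theorem col0_apply (g : Matrix (Fin 2 ⊕ I) (Fin 2 ⊕ I) R) (a : Fin 2 ⊕ I) :
    col0 g a = g a (Sum.inl 0) := by
  unfold col0
  rw [Matrix.mulVec_single_one]
  rfl

theorem col_apply (g : Matrix (Fin 2 ⊕ I) (Fin 2 ⊕ I) R) (a b : Fin 2 ⊕ I) :
    (g *ᵥ (Pi.single b 1)) a = g a b := by
  rw [Matrix.mulVec_single_one]
  rfl

/-- the columns of an isometry -/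
theorem col_hf {g : GL (Fin 2 ⊕ I) R} (hg : g ∈ UG σ (hyp M)) (a b : Fin 2 ⊕ I) :
    σ (g.1 (Sum.inl 0) a) * g.1 (Sum.inl 1) b + σ (g.1 (Sum.inl 1) a) * g.1 (Sum.inl 0) b +
      hf σ M (fun c => g.1 (Sum.inr c) a) (fun c => g.1 (Sum.inr c) b) = hyp M a b := by
  have h1 := hf_mul hg (Pi.single a 1) (Pi.single b 1)
  rw [hf_single, hf_hyp] at h1
  simp only [col_apply] at h1
  exact h1

/-- an isometry which fixes the first basis vector preserves the dual coordinate -/
theorem row1 {g : GL (Fin 2 ⊕ I) R} (hg : g ∈ UG σ (hyp M)) (h0 : ∀ a, g.1 a (Sum.inl 0) =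
    if a = Sum.inl 0 then 1 else 0) (b : Fin 2 ⊕ I) :
    g.1 (Sum.inl 1) b = if b = Sum.inl 1 then 1 else 0 := by
  have h1 := col_hf hg (Sum.inl 0) b
  rw [h0, h0, if_pos rfl, if_neg (by simp), map_one, map_zero, one_mul, zero_mul, add_zero] at h1
  have h2 : (fun c => g.1 (Sum.inr c) (Sum.inl 0)) = (0 : I → R) := by
    ext c
    rw [h0, if_neg (by simp)]
    rfl
  rw [h2, hf_zero_left, add_zero] at h1
  rw [h1]
  rcases b with b | b
  · fin_cases b <;> simp [hyp]
  · simp [hyp]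

/-- an isometry which fixes the first basis vector and acts trivially on the middle part is a
Siegel transformation -/
theorem eq_sg {g : GL (Fin 2 ⊕ I) R}
    (hg : g ∈ UG σ (hyp M)) (h0 : ∀ a, g.1 a (Sum.inl 0) = if a = Sum.inl 0 then 1 else 0)
    (h1 : ∀ a b, g.1 (Sum.inr a) (Sum.inr b) = if a = b then 1 else 0) :
    g.1 = sg σ M (fun a => g.1 (Sum.inr a) (Sum.inl 1)) (g.1 (Sum.inl 0) (Sum.inl 1)) ∧
    g.1 (Sum.inl 0) (Sum.inl 1) + σ (g.1 (Sum.inl 0) (Sum.inl 1)) +
      hf σ M (fun a => g.1 (Sum.inr a) (Sum.inl 1)) (fun a => g.1 (Sum.inr a) (Sum.inl 1)) = 0 := by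
  have hr := row1 hg h0
  refine ⟨?_, ?_⟩
  · have h3 : ∀ b, g.1 (Sum.inl 0) (Sum.inr b) =
        - lf σ M (fun a => g.1 (Sum.inr a) (Sum.inl 1)) b := by
      intro b
      have h4 := col_hf hg (Sum.inl 1) (Sum.inr b)
      rw [hr, hr, if_neg (by simp), if_pos rfl, map_one, mul_zero, zero_add, one_mul] at h4
      have h5 : (fun c => g.1 (Sum.inr c) (Sum.inr b)) = (Pi.single b 1 : I → R) := by
        ext c
        rw [h1]
        simp [Pi.single_apply]
      rw [h5, hf_lf] at h4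
      rw [Finset.sum_eq_single b] at h4
      · rw [Pi.single_eq_same, mul_one] at h4
        have h6 : hyp M (Sum.inl 1) (Sum.inr b) = 0 := by simp [hyp]
        rw [h6] at h4
        exact eq_neg_of_add_eq_zero_left h4
      · intro c _ hc
        rw [Pi.single_eq_of_ne hc, mul_zero]
      · simp
    ext a b
    rcases a with a | a <;> rcases b with b | b
    · fin_cases a <;> fin_cases b
      · exact h0 _
      · rfl
      · exact h0 _
      · exact hr _
    · fin_cases a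
      · exact h3 b
      · exact hr _
    · fin_cases b
      · exact h0 _
      · rfl
    · rw [h1]
      simp [sg, Matrix.one_apply]
  · have h4 := col_hf hg (Sum.inl 1) (Sum.inl 1)
    rw [hr, if_pos rfl, map_one, mul_one, one_mul] at h4
    have h6 : hyp M (Sum.inl 1) (Sum.inl 1) = 0 := by simp [hyp]
    rw [h6] at h4
    rw [add_comm (g.1 (Sum.inl 0) (Sum.inl 1))]
    exact h4

end Pool.Agent.Q143.UG
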