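import Pool.Agent.Q143.UG.Poly

/-!
# Table tennis for isometry groups over polynomial rings
-/

set_option autoImplicit false
set_option linter.unusedSectionVars false
set_option linter.dupNamespace false
set_option linter.unusedSimpArgs false

namespace Pool.Agent.Q143.UG

open Matrix Polynomial

/-- the action on vectors -/
def actv {R J : Type} [CommRing R] [Fintype J] [DecidableEq J] : GL J R →* Equiv.Perm (J → R) where
  toFun g :=
    { toFun := fun v => g.1 *ᵥ v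
      invFun := fun v => (g⁻¹).1 *ᵥ v
      left_inv := fun v => by
        change (g⁻¹).1 *ᵥ (g.1 *ᵥ v) = v
        rw [Matrix.mulVec_mulVec, ← Units.val_mul, inv_mul_cancel, Units.val_one, Matrix.one_mulVec]
      right_inv := fun v => by
        change g.1 *ᵥ ((g⁻¹).1 *ᵥ v) = v
        rw [Matrix.mulVec_mulVec, ← Units.val_mul, mul_inv_cancel, Units.val_one,
          Matrix.one_mulVec] }
  map_one' := by
    ext v : 1
    change (1 : Matrix J J R) *ᵥ v = v
    rw [Matrix.one_mulVec]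
  map_mul' g h := by
    ext v : 1
    change (g.1 * h.1) *ᵥ v = g.1 *ᵥ (h.1 *ᵥ v)
    rw [Matrix.mulVec_mulVec]

/-- the first basis vector -/
abbrev e0 (R I : Type) [CommRing R] [DecidableEq I] : Fin 2 ⊕ I → R := Pi.single (Sum.inl 0) 1

section

variable {K I : Type} [CommRing K] [Fintype I] [DecidableEq I] {σ : K →+* K} {M : Matrix I I K}

/-- the constant isometries -/
noncomputable def ci (σ : K →+* K) (M : Matrix I I K) : UG σ (hyp M) →* UG (sX σ) (hyp (MX M)) :=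
  mapU C (fun _ => (Polynomial.map_C σ).symm) (fun _ _ => rfl)

/-- evaluation at a point -/
noncomputable def ev (σ : K →+* K) (M : Matrix I I K) {a : K} (ha : σ a = a) :
    UG (sX σ) (hyp (MX M)) →* UG σ (hyp M) :=
  mapU (evalRingHom a) (fun p => by
    change (p.map σ).eval a = σ (p.eval a)
    rw [eval_map]
    conv_lhs => rw [← ha]
    exact hom_eval₂ p (RingHom.id K) σ a |>.symm) (fun _ _ => (eval_C).symm)

theorem ev_ci {a : K} (ha : σ a = a) (g : UG σ (hyp M)) : ev σ M ha (ci σ M g) = g := by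
  apply Subtype.ext
  apply Units.ext
  ext b c
  exact eval_C

end

variable {K I : Type} [Field K] [Fintype I] [DecidableEq I] {σ : K →+* K} {M : Matrix I I K}

variable (σ M) in
/-- the stabiliser of the isotropic line of the first basis vector -/
def BB : Subgroup (UG σ (hyp M)) where
  carrier := {g | ∃ l : K, l ≠ 0 ∧ g.1.1 *ᵥ e0 K I = l • e0 K I}
  one_mem' := ⟨1, one_ne_zero, by
    change (1 : Matrix (Fin 2 ⊕ I) (Fin 2 ⊕ I) K) *ᵥ e0 K I = _
    rw [Matrix.one_mulVec, one_smul]⟩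
  mul_mem' := by
    rintro g h ⟨l, hl, hg⟩ ⟨l', hl', hh⟩
    refine ⟨l' * l, mul_ne_zero hl' hl, ?_⟩
    change (g.1.1 * h.1.1) *ᵥ e0 K I = _
    rw [← Matrix.mulVec_mulVec, hh, Matrix.mulVec_smul, hg, smul_smul]
  inv_mem' := by
    rintro g ⟨l, hl, hg⟩
    refine ⟨l⁻¹, inv_ne_zero hl, ?_⟩
    have h1 : (g⁻¹).1.1 *ᵥ (g.1.1 *ᵥ e0 K I) = e0 K I := by
      rw [Matrix.mulVec_mulVec]
      have h2 : (g⁻¹).1.1 * g.1.1 = 1 := by
        have h3 : (g⁻¹).1 * g.1 = 1 := inv_mul_cancel g.1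
        exact congrArg Units.val h3
      rw [h2, Matrix.one_mulVec]
    rw [hg, Matrix.mulVec_smul] at h1
    rw [← h1, smul_smul, inv_mul_cancel₀ hl, one_smul]
    exact h1.symm ▸ rfl

/-- the lower left entry detects the stabiliser -/
theorem bb_of (hA : Aniso σ M) {g : UG σ (hyp M)} (h : g.1.1 (Sum.inl 1) (Sum.inl 0) = 0) :
    g ∈ BB σ M := by
  have h1 := col_hf g.2 (Sum.inl 0) (Sum.inl 0)
  have h3 : hyp M (Sum.inl 0) (Sum.inl 0) = 0 := by simp [hyp]
  rw [h, map_zero, zero_mul, mul_zero, zero_add, zero_add, h3] at h1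
  have h2 := hA _ h1
  have h4 := col_hf g.2 (Sum.inl 0) (Sum.inl 1)
  have h5 : hyp M (Sum.inl 0) (Sum.inl 1) = 1 := by simp [hyp]
  rw [h, map_zero, zero_mul, add_zero, h2, hf_zero_left, add_zero, h5] at h4
  have h6 : g.1.1 (Sum.inl 0) (Sum.inl 0) ≠ 0 := by
    intro h7
    rw [h7, map_zero, zero_mul] at h4
    exact zero_ne_one h4
  refine ⟨_, h6, ?_⟩
  ext a
  rw [col_apply]
  rcases a with a | a
  · fin_cases a
    · simp
    · simpa using h
  · have h7 := congrFun h2 a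
    simpa using h7

/-- the set for the table tennis argument -/
def X0 (K I : Type) [Field K] : Set (Fin 2 ⊕ I → K[X]) :=
  {v | ∀ j, j ≠ Sum.inl 0 → (v j).natDegree < (v (Sum.inl 0)).natDegree}

theorem ten1 (g : UG σ (hyp M)) {v : Fin 2 ⊕ I → K[X]} (hv : v ∈ X0 K I) :
    (∀ j, (((ci σ M g).1.1 *ᵥ v) j).natDegree ≤ (v (Sum.inl 0)).natDegree) ∧
    (g.1.1 (Sum.inl 1) (Sum.inl 0) ≠ 0 →
      (((ci σ M g).1.1 *ᵥ v) (Sum.inl 1)).natDegree = (v (Sum.inl 0)).natDegree) := by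
  have hle : ∀ j, (v j).natDegree ≤ (v (Sum.inl 0)).natDegree := by
    intro j
    by_cases h : j = Sum.inl 0
    · rw [h]
    · exact (hv j h).le
  have h1 : ∀ j, (((ci σ M g).1.1 *ᵥ v) j).natDegree ≤ (v (Sum.inl 0)).natDegree := by
    intro j
    rw [Matrix.mulVec, dotProduct]
    refine natDegree_sum_le_of_forall_le _ _ (fun k _ => ?_)
    exact (natDegree_C_mul_le _ _).trans (hle k)
  refine ⟨h1, fun hg => ?_⟩
  refine le_antisymm (h1 _) (le_natDegree_of_ne_zero ?_)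
  rw [Matrix.mulVec, dotProduct, finsetSum_coeff, Finset.sum_eq_single (Sum.inl 0)]
  · change (C (g.1.1 (Sum.inl 1) (Sum.inl 0)) * v (Sum.inl 0)).coeff _ ≠ 0
    rw [coeff_C_mul]
    refine mul_ne_zero hg ?_
    change (v (Sum.inl 0)).leadingCoeff ≠ 0
    rw [Ne, leadingCoeff_eq_zero]
    intro h0
    have h2 := hv (Sum.inl 1) (by simp)
    rw [h0, natDegree_zero] at h2
    exact absurd h2 (Nat.not_lt_zero _)
  · intro k _ hk
    change (C (g.1.1 (Sum.inl 1) k) * v k).coeff _ = 0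
    rw [coeff_C_mul, coeff_eq_zero_of_natDegree_lt (hv k hk), mul_zero]
  · simp

variable (σ M) in
/-- the Siegel transformations which are trivial at a point -/
noncomputable def UU {a : K} (ha : σ a = a) : Subgroup (UG (sX σ) (hyp (MX M))) where
  carrier := {g | g.1.1 *ᵥ e0 K[X] I = e0 K[X] I ∧ ev σ M ha g = 1}
  one_mem' := ⟨by
    change (1 : Matrix (Fin 2 ⊕ I) (Fin 2 ⊕ I) K[X]) *ᵥ _ = _
    rw [Matrix.one_mulVec], map_one _⟩
  mul_mem' := by
    rintro g h ⟨hg, hg'⟩ ⟨hh, hh'⟩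
    refine ⟨?_, by rw [map_mul, hg', hh', one_mul]⟩
    change (g.1.1 * h.1.1) *ᵥ _ = _
    rw [← Matrix.mulVec_mulVec, hh, hg]
  inv_mem' := by
    rintro g ⟨hg, hg'⟩
    refine ⟨?_, by rw [map_inv, hg', inv_one]⟩
    have h2 : (g⁻¹).1.1 * g.1.1 = 1 := by
      have h3 : (g⁻¹).1 * g.1 = 1 := inv_mul_cancel g.1
      exact congrArg Units.val h3
    conv_lhs => rw [← hg]
    rw [Matrix.mulVec_mulVec, h2, Matrix.one_mulVec]

theorem uu_form (hA : Aniso σ M) {a : K} (ha : σ a = a) {g : UG (sX σ) (hyp (MX M))}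
    (hg : g ∈ UU σ M ha) : ∃ (x : I → K[X]) (s : K[X]), g.1.1 = sg (sX σ) (MX M) x s ∧
      s + sX σ s + hf (sX σ) (MX M) x x = 0 ∧ (∀ b, (x b).eval a = 0) ∧ s.eval a = 0 := by
  obtain ⟨h0, h1⟩ := hg
  have h0' : ∀ b, g.1.1 b (Sum.inl 0) = if b = Sum.inl 0 then 1 else 0 := by
    intro b
    have h2 := congrFun h0 b
    rw [col_apply] at h2
    exact h2.trans (Pi.single_apply _ _ _)
  have hev : ∀ b c, (g.1.1 b c).eval a = (1 : Matrix (Fin 2 ⊕ I) (Fin 2 ⊕ I) K) b c := by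
    intro b c
    have h2 := congrArg (fun w : UG σ (hyp M) => w.1.1 b c) h1
    exact h2
  have h3 : ∀ b c, g.1.1 (Sum.inr b) (Sum.inr c) = if b = c then 1 else 0 := by
    intro b c
    have h4 := col_hf g.2 (Sum.inr c) (Sum.inr c)
    have h5 : g.1.1 (Sum.inl 1) (Sum.inr c) = 0 := by
      rw [row1 g.2 h0', if_neg (by simp)]
    rw [h5, mul_zero, map_zero, zero_mul, zero_add, zero_add] at h4
    have h6 : hyp (MX M) (Sum.inr c) (Sum.inr c) = C (M c c) := by simp [hyp]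
    rw [h6] at h4
    have h7 := const_of hA _ _ h4 b
    have h8 := eq_C_of_natDegree_eq_zero h7
    have h9 := hev (Sum.inr b) (Sum.inr c)
    rw [h8, eval_C] at h9
    rw [h8, h9, Matrix.one_apply]
    by_cases hbc : b = c
    · simp [hbc]
    · simp [hbc]
  obtain ⟨h4, h5⟩ := eq_sg g.2 h0' h3
  refine ⟨_, _, h4, h5, fun b => ?_, ?_⟩
  · rw [hev, Matrix.one_apply, if_neg (by simp)]
  · rw [hev, Matrix.one_apply, if_neg (by simp)]

theorem ten2 (hA : Aniso σ M) {a : K} (ha : σ a = a) (g : UG σ (hyp M)) (hg : g ∉ BB σ M)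
    (u : UG (sX σ) (hyp (MX M))) (hu : u ∈ UU σ M ha) (hu1 : u ≠ 1) {v : Fin 2 ⊕ I → K[X]}
    (hv : v ∈ X0 K I) : u.1.1 *ᵥ ((ci σ M g).1.1 *ᵥ v) ∈ X0 K I := by
  obtain ⟨t1, t2⟩ := ten1 (σ := σ) (M := M) g hv
  have t3 := t2 (fun h => hg (bb_of hA h))
  set w := (ci σ M g).1.1 *ᵥ v with hw
  set d := (v (Sum.inl 0)).natDegree with hd
  obtain ⟨x, s, h1, h2, h3, h4⟩ := uu_form hA ha hu
  have hne : ¬ (x = 0 ∧ s = 0) := by
    rintro ⟨rfl, rfl⟩
    apply hu1
    apply Subtype.ext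
    apply Units.ext
    rw [h1, sg_zero]
    rfl
  obtain ⟨m, hm, hxm⟩ := big hA x s h2 h3 h4 hne
  obtain ⟨v0, v1, v2⟩ := sg_vec (sX σ) (MX M) x s w
  have hd1 : 0 < d := by
    have h5 := hv (Sum.inl 1) (by simp)
    omega
  have hw1 : w (Sum.inl 1) ≠ 0 := by
    intro h5
    rw [h5, natDegree_zero] at t3
    omega
  have hs0 : s ≠ 0 := by
    rintro rfl
    rw [natDegree_zero] at hm
    omega
  have e1 : (s * w (Sum.inl 1)).natDegree = s.natDegree + d := by
    rw [natDegree_mul hs0 hw1, t3]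
  have e2 : (w (Sum.inl 0) - hf (sX σ) (MX M) x (fun b => w (Sum.inr b))).natDegree ≤ m + d := by
    refine (natDegree_sub_le _ _).trans (max_le ?_ ?_)
    · exact (t1 _).trans (by omega)
    · exact natDegree_hf σ M x _ m d hxm (fun b => t1 _)
  have e3 : ((sg (sX σ) (MX M) x s *ᵥ w) (Sum.inl 0)).natDegree = s.natDegree + d := by
    rw [v0]
    have h5 : w (Sum.inl 0) + s * w (Sum.inl 1) - hf (sX σ) (MX M) x (fun b => w (Sum.inr b)) =
        s * w (Sum.inl 1) + (w (Sum.inl 0) - hf (sX σ) (MX M) x (fun b => w (Sum.inr b))) := by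
      ring
    rw [h5, natDegree_add_eq_left_of_natDegree_lt, e1]
    rw [e1]
    omega
  intro j hj
  rw [h1, e3]
  rcases j with j | j
  · fin_cases j
    · exact absurd rfl hj
    · change ((sg (sX σ) (MX M) x s *ᵥ w) (Sum.inl 1)).natDegree < _
      rw [v1, t3]
      omega
  · rw [v2]
    refine (natDegree_add_le _ _).trans_lt (max_lt ?_ ?_)
    · have h5 := t1 (Sum.inr j)
      omega
    · refine natDegree_mul_le.trans_lt ?_
      have h5 := hxm j
      rw [t3]
      omega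

end Pool.Agent.Q143.UG
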